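import Pool.Agent.Work.MP_7da6af_nt.Gen.StarOf

/-! # The curves `(y - a, y - b, g(y))` -/

set_option autoImplicit false

namespace Pool.Agent.Work.MP_7da6af_nt.Gen

open Polynomial

/-- the curve `(y - a, y - b, g(y))` -/
noncomputable def Fab (a b : ℚ) (g : ℚ[X]) : Fin 3 → RatFunc ℚ :=
  ![algebraMap ℚ[X] (RatFunc ℚ) (X - C a), algebraMap ℚ[X] (RatFunc ℚ) (X - C b),
    algebraMap ℚ[X] (RatFunc ℚ) g]

/-- the three polynomials -/
noncomputable def Pab (a b : ℚ) (g : ℚ[X]) : Fin 3 → ℚ[X] := ![X - C a, X - C b, g]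

theorem Fab_eq (a b : ℚ) (g : ℚ[X]) (j : Fin 3) :
    Fab a b g j = algebraMap ℚ[X] (RatFunc ℚ) (Pab a b g j) := by
  fin_cases j <;> rfl

theorem indep_ex (a b : ℚ) (hab : a ≠ b) (g : ℚ[X]) (hg : 0 < g.natDegree)
    (hga : g.eval a ≠ 0) (hgb : g.eval b ≠ 0) :
    ∀ n : Fin 3 → ℤ, n ≠ 0 → ∀ c : ℚ, ∏ j, Fab a b g j ^ n j ≠ RatFunc.C c := by
  intro n hn c heq
  have hinj : Function.Injective (algebraMap ℚ[X] (RatFunc ℚ)) := RatFunc.algebraMap_injective ℚ
  have hg0 : g ≠ 0 := by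
    rintro rfl
    simp at hg
  have hP0 : ∀ j, Pab a b g j ≠ 0 := by
    intro j
    fin_cases j
    · exact X_sub_C_ne_zero a
    · exact X_sub_C_ne_zero b
    · exact hg0
  have key : ∏ j, Pab a b g j ^ (n j).toNat = C c * ∏ j, Pab a b g j ^ (-n j).toNat := by
    apply hinj
    rw [map_mul, map_prod, map_prod, RatFunc.algebraMap_C, ← heq, ← Finset.prod_mul_distrib]
    refine Finset.prod_congr rfl fun j _ => ?_
    rw [Fab_eq, map_pow, map_pow]
    have h0 : algebraMap ℚ[X] (RatFunc ℚ) (Pab a b g j) ≠ 0 := by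
      rw [Ne, map_eq_zero_iff _ hinj]
      exact hP0 j
    rw [← zpow_natCast, ← zpow_natCast, ← zpow_add₀ h0]
    congr 1
    omega
  have hc0 : c ≠ 0 := by
    rintro rfl
    rw [C_0, zero_mul, Finset.prod_eq_zero_iff] at key
    obtain ⟨j, -, hj⟩ := key
    exact pow_ne_zero _ (hP0 j) hj
  simp only [Fin.prod_univ_three, Pab, Matrix.cons_val_zero, Matrix.cons_val_one,
    Matrix.cons_val] at key
  have hab' : a - b ≠ 0 := sub_ne_zero.2 hab
  have hba' : b - a ≠ 0 := sub_ne_zero.2 hab.symm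
  have e0 : n 0 = 0 := by
    by_contra h
    have ha := congrArg (eval a) key
    simp only [eval_mul, eval_pow, eval_sub, eval_X, eval_C, sub_self] at ha
    rcases lt_or_gt_of_ne h with h1 | h1
    · have h2 : (n 0).toNat = 0 := by omega
      have h3 : (-n 0).toNat ≠ 0 := by omega
      rw [h2, pow_zero, one_mul, zero_pow h3, zero_mul, zero_mul, mul_zero] at ha
      exact mul_ne_zero (pow_ne_zero _ hab') (pow_ne_zero _ hga) ha
    · have h2 : (-n 0).toNat = 0 := by omega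
      have h3 : (n 0).toNat ≠ 0 := by omega
      rw [h2, pow_zero, one_mul, zero_pow h3, zero_mul, zero_mul] at ha
      exact mul_ne_zero hc0 (mul_ne_zero (pow_ne_zero _ hab') (pow_ne_zero _ hga)) ha.symm
  have e1 : n 1 = 0 := by
    by_contra h
    have ha := congrArg (eval b) key
    simp only [eval_mul, eval_pow, eval_sub, eval_X, eval_C, sub_self, e0, Int.toNat_zero,
      neg_zero, pow_zero, one_mul] at ha
    rcases lt_or_gt_of_ne h with h1 | h1
    · have h2 : (n 1).toNat = 0 := by omega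
      have h3 : (-n 1).toNat ≠ 0 := by omega
      rw [h2, pow_zero, one_mul, zero_pow h3, zero_mul, mul_zero] at ha
      exact pow_ne_zero _ hgb ha
    · have h2 : (-n 1).toNat = 0 := by omega
      have h3 : (n 1).toNat ≠ 0 := by omega
      rw [h2, pow_zero, one_mul, zero_pow h3, zero_mul] at ha
      exact mul_ne_zero hc0 (pow_ne_zero _ hgb) ha.symm
  have e2 : n 2 = 0 := by
    simp only [e0, e1, Int.toNat_zero, neg_zero, pow_zero, one_mul] at key
    have h1 := congrArg natDegree key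
    rw [natDegree_C_mul hc0, natDegree_pow, natDegree_pow] at h1
    have h2 := Nat.eq_of_mul_eq_mul_right hg h1
    omega
  exact hn (by
    funext j
    fin_cases j
    · exact e0
    · exact e1
    · exact e2)

/-- a complex polynomial without nonzero roots is a monomial -/
theorem eq_monomial_of (P : ℂ[X]) (h : ∀ τ : ℂ, τ ≠ 0 → P.eval τ ≠ 0) :
    ∃ (c : ℂ) (m : ℕ), P = C c * X ^ m := by
  refine ⟨P.leadingCoeff, Multiset.card P.roots, ?_⟩
  have h1 : P.roots = Multiset.replicate (Multiset.card P.roots) 0 := by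
    rw [Multiset.eq_replicate_card]
    intro τ hτ
    by_contra h0
    exact h τ h0 (isRoot_of_mem_roots hτ)
  conv_lhs => rw [(IsAlgClosed.splits P).eq_prod_roots, h1]
  simp

/-- at most one coefficient is nonzero -/
theorem coeff_zero_or (P : ℂ[X]) (h : ∀ τ : ℂ, τ ≠ 0 → P.eval τ ≠ 0) (i j : ℕ) (hij : i ≠ j) :
    P.coeff i = 0 ∨ P.coeff j = 0 := by
  obtain ⟨c, m, rfl⟩ := eq_monomial_of P h
  rw [coeff_C_mul_X_pow, coeff_C_mul_X_pow]
  by_cases h1 : i = m
  · right
    rw [if_neg (by omega)]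
  · left
    rw [if_neg h1]

/-- Laurent trinomials without zeros -/
theorem trinomial (α β δ : ℂ) (n0 n1 : ℤ)
    (h : ∀ τ : ℂ, τ ≠ 0 → α * τ ^ n0 + β * τ ^ n1 + δ ≠ 0) (hα : α ≠ 0) (hβ : β ≠ 0)
    (hδ : δ ≠ 0) (hs : α + β ≠ 0) :
    (n0 = 0 ∨ n1 = 0) ∧ (n0 = 0 → n1 ≠ 0 → α + δ = 0) ∧ (n1 = 0 → n0 ≠ 0 → β + δ = 0) := by
  obtain ⟨K, i0, i1, h0, h1⟩ : ∃ K i0 i1 : ℕ, (i0 : ℤ) = n0 + K ∧ (i1 : ℤ) = n1 + K :=
    ⟨n0.natAbs + n1.natAbs, (n0 + (n0.natAbs + n1.natAbs)).toNat,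
      (n1 + (n0.natAbs + n1.natAbs)).toNat, by omega, by omega⟩
  have hP : ∀ τ : ℂ, τ ≠ 0 → (C α * X ^ i0 + C β * X ^ i1 + C δ * X ^ K : ℂ[X]).eval τ ≠ 0 := by
    intro τ hτ
    have h2 : (C α * X ^ i0 + C β * X ^ i1 + C δ * X ^ K : ℂ[X]).eval τ =
        τ ^ K * (α * τ ^ n0 + β * τ ^ n1 + δ) := by
      simp only [eval_add, eval_mul, eval_C, eval_pow, eval_X]
      rw [← zpow_natCast τ i0, ← zpow_natCast τ i1, h0, h1, zpow_add₀ hτ, zpow_add₀ hτ,
        zpow_natCast]
      ring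
    rw [h2]
    exact mul_ne_zero (pow_ne_zero _ hτ) (h τ hτ)
  have hc : ∀ i, (C α * X ^ i0 + C β * X ^ i1 + C δ * X ^ K : ℂ[X]).coeff i =
      (if i = i0 then α else 0) + (if i = i1 then β else 0) + (if i = K then δ else 0) := by
    intro i
    simp only [coeff_add, coeff_C_mul_X_pow]
  refine ⟨?_, ?_, ?_⟩
  · by_contra hcon
    push Not at hcon
    have hne : i0 ≠ K := by omega
    rcases coeff_zero_or _ hP i0 K hne with h3 | h3
    · rw [hc, if_pos rfl, if_neg hne, add_zero] at h3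
      by_cases h4 : i0 = i1
      · rw [if_pos h4] at h3
        exact hs h3
      · rw [if_neg h4, add_zero] at h3
        exact hα h3
    · rw [hc, if_neg hne.symm, if_neg (by omega), if_pos rfl, zero_add, zero_add] at h3
      exact hδ h3
  · intro h2 h3
    have hne : i1 ≠ K := by omega
    rcases coeff_zero_or _ hP i1 K hne with h4 | h4
    · rw [hc, if_neg (by omega), if_pos rfl, if_neg hne, add_zero, zero_add] at h4
      exact absurd h4 hβ
    · rw [hc, if_pos (by omega), if_neg (by omega), if_pos rfl, add_zero] at h4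
      exact h4
  · intro h2 h3
    have hne : i0 ≠ K := by omega
    rcases coeff_zero_or _ hP i0 K hne with h4 | h4
    · rw [hc, if_pos rfl, if_neg (by omega), if_neg hne, add_zero, add_zero] at h4
      exact absurd h4 hα
    · rw [hc, if_neg (by omega), if_pos (by omega), if_pos rfl, zero_add] at h4
      exact h4

/-- the case of a single root -/
theorem pure_case (a b : ℚ) (hab : a ≠ b) (g : ℚ[X])
    (hroots : ∀ γ ∈ (g.map (algebraMap ℚ ℂ)).roots, γ = (a : ℂ) - 1 / ((a : ℂ) - b))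
    (hprod : (g.leadingCoeff : ℂ) ^ 2 *
      ((g.map (algebraMap ℚ ℂ)).roots.map fun γ => ((a : ℂ) - γ) / (a - b)).prod = 1) :
    ∃ (m : ℕ) (s : ℚ), (s = 1 ∨ s = -1) ∧ g = C s * (C (a - b) * (X - C a) + 1) ^ m := by
  have hab' : a - b ≠ 0 := sub_ne_zero.2 hab
  have habC : (a : ℂ) - b ≠ 0 := by exact_mod_cast hab'
  set m := Multiset.card (g.map (algebraMap ℚ ℂ)).roots with hm
  have h1 : (g.map (algebraMap ℚ ℂ)).roots = Multiset.replicate m ((a : ℂ) - 1 / ((a : ℂ) - b)) := by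
    rw [hm, Multiset.eq_replicate_card]
    exact hroots
  have h2 : g = C g.leadingCoeff * (X - C (a - 1 / (a - b))) ^ m := by
    apply Polynomial.map_injective (algebraMap ℚ ℂ) (algebraMap ℚ ℂ).injective
    conv_lhs => rw [(IsAlgClosed.splits (g.map (algebraMap ℚ ℂ))).eq_prod_roots, h1]
    simp [leadingCoeff_map]
  rw [h1, Multiset.map_replicate, Multiset.prod_replicate] at hprod
  have h3 : ((a : ℂ) - ((a : ℂ) - 1 / ((a : ℂ) - b))) / (a - b) = (((a : ℂ) - b)⁻¹) ^ 2 := by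
    field_simp
    ring
  rw [h3] at hprod
  refine ⟨m, g.leadingCoeff * ((a - b)⁻¹) ^ m, ?_, ?_⟩
  · have h4 : (g.leadingCoeff * ((a - b)⁻¹) ^ m) ^ 2 = 1 := by
      have h5 : ((((g.leadingCoeff * ((a - b)⁻¹) ^ m) ^ 2 : ℚ)) : ℂ) = ((1 : ℚ) : ℂ) := by
        push_cast
        rw [← hprod]
        ring
      exact_mod_cast h5
    rw [sq] at h4
    exact mul_self_eq_one_iff.1 h4
  · have h6 : (C (a - b) * (X - C a) + 1 : ℚ[X]) = C (a - b) * (X - C (a - 1 / (a - b))) := by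
      have h7 : (a - b) * (a - 1 / (a - b)) = (a - b) * a - 1 := by
        field_simp
      have h9 : (C ((a - b) * a - 1) : ℚ[X]) = C ((a - b) * a) - 1 := by
        rw [← C_1, ← C_sub]
      rw [mul_sub, mul_sub, ← C_mul, ← C_mul, h7, h9]
      ring
    rw [h6, mul_pow, ← C_pow, ← mul_assoc, ← C_mul]
    have h8 : g.leadingCoeff * (a - b)⁻¹ ^ m * (a - b) ^ m = g.leadingCoeff := by
      rw [mul_assoc, ← mul_pow, inv_mul_cancel₀ hab', one_pow, mul_one]
    rw [h8]
    exact h2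

/-- two circles with different centres on the real axis -/
theorem circles_finite (a b : ℚ) (hab : a ≠ b) (r s : ℝ) :
    {z : ℂ | ‖z - (a : ℂ)‖ = r ∧ ‖z - (b : ℂ)‖ = s}.Finite := by
  have hab' : (a : ℝ) - b ≠ 0 := by
    rw [sub_ne_zero]
    exact_mod_cast hab
  set x0 : ℝ := (s ^ 2 - r ^ 2 + a ^ 2 - b ^ 2) / (2 * (a - b)) with hx0
  set y0 : ℝ := √(r ^ 2 - (x0 - a) ^ 2) with hy0
  refine (Set.toFinite ({⟨x0, y0⟩, ⟨x0, -y0⟩} : Set ℂ)).subset ?_
  rintro z ⟨h1, h2⟩
  have e1 : (z.re - a) ^ 2 + z.im ^ 2 = r ^ 2 := by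
    rw [← h1, ← Complex.normSq_eq_norm_sq, Complex.normSq_apply]
    simp
    ring
  have e2 : (z.re - b) ^ 2 + z.im ^ 2 = s ^ 2 := by
    rw [← h2, ← Complex.normSq_eq_norm_sq, Complex.normSq_apply]
    simp
    ring
  have e3 : z.re = x0 := by
    rw [hx0, eq_div_iff (mul_ne_zero two_ne_zero hab')]
    linarith
  have e4 : z.im ^ 2 = r ^ 2 - (x0 - a) ^ 2 := by
    rw [← e3]
    linarith
  have e5 : z.im = y0 ∨ z.im = -y0 := by
    have h3 : |z.im| = y0 := by
      rw [hy0, ← e4, Real.sqrt_sq_eq_abs]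
    rcases abs_choice z.im with h4 | h4
    · left
      rw [← h3, h4]
    · right
      rw [← h3, h4, neg_neg]
  rcases e5 with h | h
  · left
    exact Complex.ext e3 h
  · right
    exact Complex.ext e3 h

/-- the equation of the squares of the absolute values -/
noncomputable def Wab (a b : ℚ) (g : ℚ[X]) : MvPolynomial (Fin 3) ℂ :=
  MvPolynomial.X 2 - MvPolynomial.C ((g.leadingCoeff : ℂ) ^ 2) *
    ((g.map (algebraMap ℚ ℂ)).roots.map fun γ =>
      MvPolynomial.C ((γ - b) / ((a : ℂ) - b)) * MvPolynomial.X 0 +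
        MvPolynomial.C (((a : ℂ) - γ) / ((a : ℂ) - b)) * MvPolynomial.X 1 +
        MvPolynomial.C ((γ - a) * (γ - b))).prod

theorem eval_Wab (a b : ℚ) (g : ℚ[X]) (x : Fin 3 → ℂ) :
    MvPolynomial.eval x (Wab a b g) = x 2 - (g.leadingCoeff : ℂ) ^ 2 *
      ((g.map (algebraMap ℚ ℂ)).roots.map fun γ =>
        (γ - b) / ((a : ℂ) - b) * x 0 + ((a : ℂ) - γ) / ((a : ℂ) - b) * x 1 +
          (γ - a) * (γ - b)).prod := by
  rw [Wab, map_sub, map_mul, map_multiset_prod, Multiset.map_map]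
  simp

theorem Wab_curve (a b : ℚ) (hab : a ≠ b) (g : ℚ[X]) (z : ℂ) :
    ((‖(g.map (algebraMap ℚ ℂ)).eval z‖ ^ 2 : ℝ) : ℂ) = (g.leadingCoeff : ℂ) ^ 2 *
      ((g.map (algebraMap ℚ ℂ)).roots.map fun γ =>
        (γ - b) / ((a : ℂ) - b) * ((‖z - (a : ℂ)‖ ^ 2 : ℝ) : ℂ) +
        ((a : ℂ) - γ) / ((a : ℂ) - b) * ((‖z - (b : ℂ)‖ ^ 2 : ℝ) : ℂ) +
          (γ - a) * (γ - b)).prod := by
  have habC : (a : ℂ) - b ≠ 0 := by
    rw [sub_ne_zero]
    exact_mod_cast hab
  have hconj : ∀ w : ℂ, ((‖w‖ ^ 2 : ℝ) : ℂ) = w * (starRingEnd ℂ) w := by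
    intro w
    rw [Complex.mul_conj, Complex.normSq_eq_norm_sq]
  have h1 : (starRingEnd ℂ) ((g.map (algebraMap ℚ ℂ)).eval z) =
      (g.map (algebraMap ℚ ℂ)).eval ((starRingEnd ℂ) z) := by
    rw [eval_map, eval_map, hom_eval₂]
    congr 1
    exact Subsingleton.elim _ _
  rw [hconj, h1, (IsAlgClosed.splits _).eval_eq_prod_roots, leadingCoeff_map,
    (IsAlgClosed.splits _).eval_eq_prod_roots, leadingCoeff_map]
  have h2 : ∀ γ : ℂ, (γ - b) / ((a : ℂ) - b) * ((‖z - (a : ℂ)‖ ^ 2 : ℝ) : ℂ) +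
        ((a : ℂ) - γ) / ((a : ℂ) - b) * ((‖z - (b : ℂ)‖ ^ 2 : ℝ) : ℂ) +
          (γ - a) * (γ - b) = (z - γ) * ((starRingEnd ℂ) z - γ) := by
    intro γ
    rw [hconj, hconj, map_sub, map_sub]
    simp only [map_ratCast]
    field_simp
    ring
  simp only [h2]
  rw [Multiset.prod_map_mul]
  simp only [eq_ratCast]
  ring

/-- All `g` except two explicit families. -/
theorem star_ex (a b : ℚ) (hab : a ≠ b) (g : ℚ[X]) (hg : 0 < g.natDegree)
    (hga : g.eval a ≠ 0) (hgb : g.eval b ≠ 0)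
    (hexc : ∀ m : ℕ, ∀ s : ℚ, s = 1 ∨ s = -1 →
      g ≠ C s * (C (a - b) * (X - C a) + 1) ^ m ∧ g ≠ C s * (C (b - a) * (X - C b) + 1) ^ m)
    (σ : ℚ →+* ℂ) : StarP (Fab a b g) σ := by
  obtain rfl : σ = algebraMap ℚ ℂ := Subsingleton.elim _ _
  have habC : (a : ℂ) - b ≠ 0 := by
    rw [sub_ne_zero]
    exact_mod_cast hab
  have hg0 : g ≠ 0 := by
    rintro rfl
    simp at hg
  have c0 : ∀ z, cu (Fab a b g) (algebraMap ℚ ℂ) z 0 = z - a := by
    intro z
    rw [cu, Fab_eq, RatFunc.num_algebraMap, RatFunc.denom_algebraMap]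
    simp [ev, Pab]
  have c1 : ∀ z, cu (Fab a b g) (algebraMap ℚ ℂ) z 1 = z - b := by
    intro z
    rw [cu, Fab_eq, RatFunc.num_algebraMap, RatFunc.denom_algebraMap]
    simp [ev, Pab]
  have c2 : ∀ z, cu (Fab a b g) (algebraMap ℚ ℂ) z 2 = (g.map (algebraMap ℚ ℂ)).eval z := by
    intro z
    rw [cu, Fab_eq, RatFunc.num_algebraMap, RatFunc.denom_algebraMap]
    simp [ev, Pab, eval_map]
  refine star_of _ _ ?_ (Wab a b g) ?_ ?_
  · intro c
    refine (circles_finite a b hab (c 0) (c 1)).subset ?_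
    rintro z ⟨-, hz⟩
    exact ⟨by rw [← c0 z]; exact hz 0, by rw [← c1 z]; exact hz 1⟩
  · intro z _
    rw [eval_Wab]
    simp only [c0, c1, c2]
    rw [Wab_curve a b hab g z, sub_self]
  · intro n hn
    by_contra hcon
    push Not at hcon
    set R := (g.map (algebraMap ℚ ℂ)).roots with hR
    set f : ℂ → ℂ → ℂ := fun γ τ => (γ - b) / ((a : ℂ) - b) * τ ^ n 0 +
      ((a : ℂ) - γ) / ((a : ℂ) - b) * τ ^ n 1 + (γ - a) * (γ - b) with hf
    have hev : ∀ τ : ℂ, τ ≠ 0 → τ ^ n 2 = (g.leadingCoeff : ℂ) ^ 2 * (R.map fun γ => f γ τ).prod := by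
      intro τ hτ
      have h1 := hcon τ hτ
      rw [eval_Wab, sub_eq_zero] at h1
      exact h1
    have hroot : ∀ γ ∈ R, γ - a ≠ 0 ∧ γ - b ≠ 0 := by
      intro γ hγ
      have h1 : (g.map (algebraMap ℚ ℂ)).eval γ = 0 := isRoot_of_mem_roots hγ
      constructor
      · intro h2
        rw [sub_eq_zero] at h2
        rw [h2, eval_map, ← eq_ratCast (algebraMap ℚ ℂ), eval₂_at_apply] at h1
        exact hga ((map_eq_zero _).1 h1)
      · intro h2
        rw [sub_eq_zero] at h2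
        rw [h2, eval_map, ← eq_ratCast (algebraMap ℚ ℂ), eval₂_at_apply] at h1
        exact hgb ((map_eq_zero _).1 h1)
    have hfne : ∀ γ ∈ R, ∀ τ : ℂ, τ ≠ 0 → f γ τ ≠ 0 := by
      intro γ hγ τ hτ h1
      have h2 := hev τ hτ
      rw [Multiset.prod_eq_zero (Multiset.mem_map.2 ⟨γ, hγ, h1⟩), mul_zero] at h2
      exact zpow_ne_zero _ hτ h2
    have htri : ∀ γ ∈ R, (n 0 = 0 ∨ n 1 = 0) ∧
        (n 0 = 0 → n 1 ≠ 0 → (γ - b) / ((a : ℂ) - b) + (γ - a) * (γ - b) = 0) ∧
        (n 1 = 0 → n 0 ≠ 0 → ((a : ℂ) - γ) / ((a : ℂ) - b) + (γ - a) * (γ - b) = 0) := by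
      intro γ hγ
      obtain ⟨h1, h2⟩ := hroot γ hγ
      have h3 : (a : ℂ) - γ ≠ 0 := fun h => h1 (by rw [← neg_sub, h, neg_zero])
      refine trinomial _ _ _ _ _ (hfne γ hγ) (div_ne_zero h2 habC) (div_ne_zero h3 habC)
        (mul_ne_zero h1 h2) ?_
      rw [← add_div]
      have h4 : γ - b + (a - γ) = (a : ℂ) - b := by ring
      rw [h4, div_self habC]
      exact one_ne_zero
    have h1 := hev 1 one_ne_zero
    rw [one_zpow] at h1
    by_cases hn0 : n 0 = 0
    · by_cases hn1 : n 1 = 0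
      · have h2 := hev 2 two_ne_zero
        have h3 : (fun γ => f γ 2) = fun γ => f γ 1 := by
          funext γ
          simp only [hf, hn0, hn1, zpow_zero]
        rw [h3, ← h1] at h2
        have h4 : n 2 ≠ 0 := by
          intro h5
          apply hn
          funext j
          fin_cases j
          · exact hn0
          · exact hn1
          · exact h5
        have h5 : ((2 : ℝ) ^ n 2 : ℝ) = 1 := by
          have h6 : (((2 : ℝ) ^ n 2 : ℝ) : ℂ) = ((1 : ℝ) : ℂ) := by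
            push_cast
            exact h2
          exact_mod_cast h6
        rw [zpow_eq_one_iff_right₀ (by norm_num) (by norm_num)] at h5
        exact h4 h5
      · have h2 : ∀ γ ∈ R, γ = (a : ℂ) - 1 / ((a : ℂ) - b) := by
          intro γ hγ
          have h3 := (htri γ hγ).2.1 hn0 hn1
          have h4 : (γ - b) * (1 / ((a : ℂ) - b) + (γ - a)) = 0 := by
            rw [← h3]
            ring
          rcases mul_eq_zero.1 h4 with h5 | h5
          · exact absurd h5 (hroot γ hγ).2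
          · linear_combination h5
        have h3 : (R.map fun γ => f γ 1) = R.map fun γ => ((a : ℂ) - γ) / (a - b) := by
          apply Multiset.map_congr rfl
          intro γ hγ
          have h4 := (htri γ hγ).2.1 hn0 hn1
          simp only [hf, one_zpow, mul_one]
          linear_combination h4
        rw [h3] at h1
        obtain ⟨m, s, hs, hgs⟩ := pure_case a b hab g h2 h1.symm
        exact (hexc m s hs).1 hgs
    · have hn1 : n 1 = 0 := by
        obtain ⟨γ, hγ⟩ : ∃ γ, γ ∈ R := by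
          have h2 : 0 < Multiset.card R := by
            rw [hR, IsAlgClosed.card_roots_map_eq_natDegree_of_injective _
              (algebraMap ℚ ℂ).injective]
            exact hg
          exact Multiset.card_pos_iff_exists_mem.1 h2
        exact ((htri γ hγ).1).resolve_left hn0
      have h2 : ∀ γ ∈ R, γ = (b : ℂ) - 1 / ((b : ℂ) - a) := by
        intro γ hγ
        have h3 := (htri γ hγ).2.2 hn1 hn0
        have h4 : (γ - a) * (-(1 / ((a : ℂ) - b)) + (γ - b)) = 0 := by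
          rw [← h3]
          ring
        have h6 : (b : ℂ) - a ≠ 0 := fun h => habC (by rw [← neg_sub, h, neg_zero])
        rcases mul_eq_zero.1 h4 with h5 | h5
        · exact absurd h5 (hroot γ hγ).1
        · have h7 : 1 / ((b : ℂ) - a) = -(1 / ((a : ℂ) - b)) := by
            rw [← neg_sub, one_div, one_div, inv_neg]
          rw [h7]
          linear_combination h5
      have h3 : (R.map fun γ => f γ 1) = R.map fun γ => ((b : ℂ) - γ) / (b - a) := by
        apply Multiset.map_congr rfl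
        intro γ hγ
        have h4 := (htri γ hγ).2.2 hn1 hn0
        simp only [hf, one_zpow, mul_one]
        have h5 : ((b : ℂ) - γ) / (b - a) = (γ - b) / ((a : ℂ) - b) := by
          rw [← neg_sub γ, ← neg_sub (a : ℂ), neg_div_neg_eq]
        rw [h5]
        linear_combination h4
      rw [h3] at h1
      obtain ⟨m, s, hs, hgs⟩ := pure_case b a hab.symm g h2 h1.symm
      exact (hexc m s hs).2 hgs

end Pool.Agent.Work.MP_7da6af_nt.Gen
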