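import Pool.Agent.Work.MP_7da6af_nt.Gen.Degree
import Pool.Agent.Work.MP_7da6af_nt.ML
import Pool.Agent.Work.MP_7da6af_nt.LinAlg

/-! # The main theorem, general form -/

set_option autoImplicit false

namespace Pool.Agent.Work.MP_7da6af_nt.Gen

open NumberField Polynomial

variable {k : Type} [Field k] [NumberField k]

/-- the values of `u`, `v`, `w` -/
theorem uvw (D : Dat k) (B : ℝ) : ∃ C : ℝ, 0 ≤ C ∧
    ∀ (K : Type) [Field K] [NumberField K] (φ : k →+* K) (x z y : K), Pt D K φ x z y →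
      hh y ≤ B * dg K →
      hh (ev φ y D.u) ≤ C * dg K ∧ hh (ev φ y D.v) ≤ C * dg K ∧
        hh (ev φ y D.w) ≤ C * dg K := by
  obtain ⟨Cu, hCu, h1⟩ := hh_poly_bdd D.u B
  obtain ⟨Cv, hCv, h2⟩ := hh_poly_bdd D.v B
  obtain ⟨Cw, hCw, h3⟩ := hh_poly_bdd D.w B
  refine ⟨Cu + Cv + Cw, by positivity, fun K _ _ φ x z y h hy => ?_⟩
  have hd : 0 < dg K := dg_pos
  refine ⟨(h1 K φ y hy h.hu).trans ?_, (h2 K φ y hy h.hv).trans ?_, (h3 K φ y hy h.hw).trans ?_⟩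
  · exact mul_le_mul_of_nonneg_right (by linarith) hd.le
  · exact mul_le_mul_of_nonneg_right (by linarith) hd.le
  · exact mul_le_mul_of_nonneg_right (by linarith) hd.le

/-- fixed irreducible polynomial of `y` -/
theorem fixedMin (D : Dat k) (B : ℝ) (f : k[X]) (hirr : Irreducible f) : ∃ C : ℝ, 0 ≤ C ∧
    ∀ (K : Type) [Field K] [NumberField K] (φ : k →+* K) (x z y : K), Pt D K φ x z y →
      hh y ≤ B * dg K → ev φ y f = 0 → hh x ≤ C * dg K := by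
  classical
  haveI : Fact (Irreducible f) := ⟨hirr⟩
  have hf0 : f ≠ 0 := hirr.ne_zero
  let K₀ := AdjoinRoot f
  haveI : CharZero K₀ := charZero_of_injective_algebraMap (algebraMap k K₀).injective
  haveI : FiniteDimensional k K₀ := (AdjoinRoot.powerBasis hf0).finite
  haveI : FiniteDimensional ℚ K₀ := FiniteDimensional.trans ℚ k K₀
  haveI : NumberField K₀ := ⟨⟩
  let φ₀ : k →+* K₀ := AdjoinRoot.of f
  let y₀ : K₀ := AdjoinRoot.root f
  let l : Fin 5 → K₀ := ![cu D.F φ₀ y₀ 0, cu D.F φ₀ y₀ 1, cu D.F φ₀ y₀ 2,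
    ev φ₀ y₀ D.u / ev φ₀ y₀ D.w, ev φ₀ y₀ D.v / ev φ₀ y₀ D.w]
  -- the specialisation
  have hspec : ∀ (K : Type) [Field K] [NumberField K] (φ : k →+* K) (y : K), ev φ y f = 0 →
      ∃ ψ : K₀ →+* K, ∀ P : k[X], ψ (ev φ₀ y₀ P) = ev φ y P := by
    intro K _ _ φ y h
    refine ⟨AdjoinRoot.lift φ y h, fun P => ?_⟩
    unfold ev
    rw [hom_eval₂]
    have e1 : (AdjoinRoot.lift φ y h).comp φ₀ = φ := by
      ext t
      exact AdjoinRoot.lift_of h
    rw [e1]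
    congr 1
    exact AdjoinRoot.lift_root h
  by_cases hl : ∀ i, l i ≠ 0
  swap
  · refine ⟨0, le_rfl, fun K _ _ φ x z y h _ hf => absurd ?_ hl⟩
    obtain ⟨ψ, hP⟩ := hspec K φ y hf
    have hne : ∀ P : k[X], ev φ y P ≠ 0 → ev φ₀ y₀ P ≠ 0 := fun P h1 h2 => h1 (by
      rw [← hP, h2, map_zero])
    intro i
    fin_cases i
    · exact div_ne_zero (hne _ (h.hreg 0).1) (hne _ (h.hreg 0).2)
    · exact div_ne_zero (hne _ (h.hreg 1).1) (hne _ (h.hreg 1).2)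
    · exact div_ne_zero (hne _ (h.hreg 2).1) (hne _ (h.hreg 2).2)
    · exact div_ne_zero (hne _ h.hu) (hne _ h.hw)
    · exact div_ne_zero (hne _ h.hv) (hne _ h.hw)
  obtain ⟨C, hC, hml⟩ := ml K₀ 5 l hl
  obtain ⟨C', hC', huvw⟩ := uvw D B
  refine ⟨C + 2 * C', by positivity, fun K _ _ φ x z y h hy hf => ?_⟩
  obtain ⟨ψ, hP⟩ := hspec K φ y hf
  obtain ⟨h1, h2, h3⟩ := huvw K φ x z y h hy
  obtain ⟨m, hm, ⟨c, hc⟩, ⟨d, hd⟩⟩ := h.dep
  have hcuψ : ∀ i, ψ (cu D.F φ₀ y₀ i) = cu D.F φ y i := fun i => by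
    unfold cu
    rw [map_div₀, hP, hP]
  have hlψ : ∀ i, ψ (l i) = (![cu D.F φ y 0, cu D.F φ y 1, cu D.F φ y 2,
      ev φ y D.u / ev φ y D.w, ev φ y D.v / ev φ y D.w] : Fin 5 → K) i := by
    intro i
    fin_cases i
    · exact hcuψ 0
    · exact hcuψ 1
    · exact hcuψ 2
    · show ψ (ev φ₀ y₀ D.u / ev φ₀ y₀ D.w) = _
      rw [map_div₀, hP, hP]
      rfl
    · show ψ (ev φ₀ y₀ D.v / ev φ₀ y₀ D.w) = _
      rw [map_div₀, hP, hP]
      rfl
  have hmon : ∀ κ : Fin 5 → ℤ, ψ (mon l κ) =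
      mon (cu D.F φ y) ![κ 0, κ 1, κ 2] * (ev φ y D.u / ev φ y D.w) ^ κ 3 *
        (ev φ y D.v / ev φ y D.w) ^ κ 4 := by
    intro κ
    rw [map_mon ψ l κ]
    unfold mon
    simp only [hlψ, Fin.prod_univ_five, Fin.prod_univ_three]
    simp
  have hx' : (ev φ y D.u / ev φ y D.w) * x ≠ 0 := mul_ne_zero (div_ne_zero h.hu h.hw) h.hx
  have hz' : (ev φ y D.v / ev φ y D.w) * z ≠ 0 := mul_ne_zero (div_ne_zero h.hv h.hw) h.hz
  have hw := h.hw
  have hsum : (ev φ y D.u / ev φ y D.w) * x + (ev φ y D.v / ev φ y D.w) * z = 1 := by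
    have := h.heq
    field_simp
    exact this
  have hlast := hml K ψ _ _ hx' hz' hsum m hm
    ⟨![c 0, c 1, c 2, m, 0], by
      rw [hmon, mul_pow, hc]
      have e2 : (![(![c 0, c 1, c 2, (m : ℤ), 0] : Fin 5 → ℤ) 0,
          (![c 0, c 1, c 2, (m : ℤ), 0] : Fin 5 → ℤ) 1,
          (![c 0, c 1, c 2, (m : ℤ), 0] : Fin 5 → ℤ) 2] : Fin 3 → ℤ) = c := by
        funext i
        fin_cases i <;> rfl
      rw [e2]
      show _ = _ * _ ^ (m : ℤ) * _ ^ (0 : ℤ)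
      rw [zpow_natCast, zpow_zero, mul_one, mul_comm]⟩
    ⟨![d 0, d 1, d 2, 0, m], by
      rw [hmon, mul_pow, hd]
      have e2 : (![(![d 0, d 1, d 2, 0, (m : ℤ)] : Fin 5 → ℤ) 0,
          (![d 0, d 1, d 2, 0, (m : ℤ)] : Fin 5 → ℤ) 1,
          (![d 0, d 1, d 2, 0, (m : ℤ)] : Fin 5 → ℤ) 2] : Fin 3 → ℤ) = d := by
        funext i
        fin_cases i <;> rfl
      rw [e2]
      show _ = _ * _ ^ (0 : ℤ) * _ ^ (m : ℤ)
      rw [zpow_natCast, zpow_zero, mul_one, mul_comm]⟩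
  have hx : x = ((ev φ y D.u / ev φ y D.w) * x) * (ev φ y D.w / ev φ y D.u) := by
    have := h.hu
    field_simp
  have h4 : hh x ≤ hh ((ev φ y D.u / ev φ y D.w) * x) + hh (ev φ y D.w / ev φ y D.u) := by
    conv_lhs => rw [hx]
    exact hh_mul_le hx' (div_ne_zero h.hw h.hu)
  have h5 := hh_div_le h.hw h.hu
  nlinarith

theorem main (D : Dat k) : ∃ C : ℝ,
    ∀ (K : Type) [Field K] [NumberField K] (φ : k →+* K) (x z y : K), Pt D K φ x z y →
      hh x ≤ C * dg K ∧ hh z ≤ C * dg K ∧ hh y ≤ C * dg K ∧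
        ∀ j, hh (cu D.F φ y j) ≤ C * dg K := by
  classical
  obtain ⟨B, hB, hc2⟩ := D.c2
  obtain ⟨B', hB', hcu⟩ := cu_height D.F B
  obtain ⟨H, S, hSirr, hdeg⟩ := degree D
  have hfm : ∀ f : k[X], ∃ C : ℝ, 0 ≤ C ∧ (Irreducible f →
      ∀ (K : Type) [Field K] [NumberField K] (φ : k →+* K) (x z y : K), Pt D K φ x z y →
        hh y ≤ B * dg K → ev φ y f = 0 → hh x ≤ C * dg K) := by
    intro f
    by_cases hirr : Irreducible f
    · obtain ⟨C, hC, h⟩ := fixedMin D B f hirr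
      exact ⟨C, hC, fun _ => h⟩
    · exact ⟨0, le_rfl, fun h => absurd h hirr⟩
  choose Cf hCf0 hCf using hfm
  obtain ⟨C', hC', huvw⟩ := uvw D B
  set Cx : ℝ := |H| + ∑ f ∈ S, Cf f with hCx
  have hCx0 : 0 ≤ Cx := add_nonneg (abs_nonneg _) (Finset.sum_nonneg fun f _ => hCf0 f)
  have hx : ∀ (K : Type) [Field K] [NumberField K] (φ : k →+* K) (x z y : K),
      Pt D K φ x z y → hh x ≤ Cx * dg K ∧ hh y ≤ B * dg K := by
    intro K _ _ φ x z y h
    have hd : 0 < dg K := dg_pos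
    obtain ⟨κ, hκ, hκr⟩ := h.real_rel
    have hy := hc2 K φ y h.hreg κ hκ hκr
    refine ⟨?_, hy⟩
    rcases le_total (H * dg K) (hh x) with h1 | h1
    · obtain ⟨f, hf, hf0⟩ := hdeg K φ x z y h h1
      have h3 := hCf f (hSirr f hf) K φ x z y h hy hf0
      have h4 : Cf f ≤ ∑ f ∈ S, Cf f := Finset.single_le_sum (fun f _ => hCf0 f) hf
      refine h3.trans (mul_le_mul_of_nonneg_right ?_ hd.le)
      linarith [abs_nonneg H]
    · refine h1.trans (mul_le_mul_of_nonneg_right ?_ hd.le)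
      have : 0 ≤ ∑ f ∈ S, Cf f := Finset.sum_nonneg fun f _ => hCf0 f
      linarith [le_abs_self H]
  refine ⟨Cx + B + B' + 4 * C' + Cx + 1, fun K _ _ φ x z y h => ?_⟩
  have hd : 0 < dg K := dg_pos
  obtain ⟨h1, h2⟩ := hx K φ x z y h
  obtain ⟨h3, h4, h5⟩ := huvw K φ x z y h h2
  have hlog : Real.log 2 ≤ 1 := by
    have := Real.log_two_lt_d9
    linarith
  refine ⟨?_, ?_, ?_, fun j => ?_⟩
  · nlinarith
  · -- z = (w - u x) / v
    have hz : z = (ev φ y D.w - ev φ y D.u * x) / ev φ y D.v := by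
      rw [eq_div_iff h.hv]
      linear_combination h.heq
    have hne : ev φ y D.w - ev φ y D.u * x ≠ 0 := by
      rw [← h.heq]
      have : ev φ y D.u * x + ev φ y D.v * z - ev φ y D.u * x = ev φ y D.v * z := by ring
      rw [this]
      exact mul_ne_zero h.hv h.hz
    have h6 : hh z ≤ hh (ev φ y D.w - ev φ y D.u * x) + hh (ev φ y D.v) := by
      conv_lhs => rw [hz]
      exact hh_div_le hne h.hv
    have h7 := hh_sub_le h.hw (mul_ne_zero h.hu h.hx) hne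
    have h8 := hh_mul_le h.hu h.hx
    nlinarith
  · nlinarith
  · have h9 := hcu K φ y h.hreg h2 j
    nlinarith

/-- The final form: three independent relations on the point `(x, z, F(y))` of the torus of
dimension five, at most one of them (up to multiples) on `F(y)`. -/
theorem final (F : Fin 3 → RatFunc k) (u v w : k[X]) (hu : u ≠ 0) (hv : v ≠ 0) (hw : w ≠ 0)
    (hind : ∀ n : Fin 3 → ℤ, n ≠ 0 → ∀ c : k, ∏ j, F j ^ n j ≠ RatFunc.C c)
    (hstar : ∀ σ : k →+* ℂ, StarP F σ) : ∃ C : ℝ,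
    ∀ (K : Type) [Field K] [NumberField K] (φ : k →+* K) (x z y : K), x ≠ 0 → z ≠ 0 →
      Reg F φ y → ev φ y u ≠ 0 → ev φ y v ≠ 0 → ev φ y w ≠ 0 →
      ev φ y u * x + ev φ y v * z = ev φ y w →
      (∃ M : Fin 3 → Fin 5 → ℤ, LinearIndependent ℤ M ∧ ∀ i, x ^ M i 0 * z ^ M i 1 *
        ∏ j : Fin 3, cu F φ y j ^ M i (Fin.natAdd 2 j) = 1) →
      (¬ ∃ N : Fin 2 → Fin 3 → ℤ, LinearIndependent ℤ N ∧ ∀ i, ∏ j, cu F φ y j ^ N i j = 1) →
      hh x ≤ C * dg K ∧ hh z ≤ C * dg K ∧ hh y ≤ C * dg K ∧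
        ∀ j, hh (cu F φ y j) ≤ C * dg K := by
  let D : Dat k := ⟨F, u, v, w, hu, hv, hw, c2_of_indep F hind, hstar⟩
  obtain ⟨C, hC⟩ := main D
  refine ⟨C, fun K _ _ φ x z y hx hz hreg huy hvy hwy heq hM hN => ?_⟩
  obtain ⟨M, hM, hrel⟩ := hM
  have hcu0 : ∀ l, cu F φ y l ≠ 0 := cu_ne_zero hreg
  -- pass to units
  let X : Kˣ := Units.mk0 x hx
  let Z : Kˣ := Units.mk0 z hz
  let T : Fin 3 → Kˣ := fun j => Units.mk0 (cu F φ y j) (hcu0 j)
  have hrel' : ∀ i, X ^ M i 0 * Z ^ M i 1 * ∏ j : Fin 3, T j ^ M i (Fin.natAdd 2 j) = 1 := by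
    intro i
    ext
    push_cast
    exact hrel i
  have hno' : ¬ ∃ N : Fin 2 → Fin 3 → ℤ, LinearIndependent ℤ N ∧ ∀ i, ∏ j, T j ^ N i j = 1 := by
    rintro ⟨N, hN1, hN2⟩
    refine hN ⟨N, hN1, fun i => ?_⟩
    have := congrArg Units.val (hN2 i)
    push_cast at this
    exact this
  obtain ⟨⟨κ, hκ, hκ1⟩, m, hm, ⟨c, hc⟩, ⟨d, hd⟩⟩ := linalg X Z T M hM hrel' hno'
  refine hC K φ x z y ⟨hx, hz, hreg, huy, hvy, hwy, heq, ⟨κ, hκ, ?_⟩, m, hm, ⟨c, ?_⟩, ⟨d, ?_⟩⟩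
  · have := congrArg Units.val hκ1
    push_cast at this
    exact this
  · have := congrArg Units.val hc
    push_cast at this
    exact this
  · have := congrArg Units.val hd
    push_cast at this
    exact this

end Pool.Agent.Work.MP_7da6af_nt.Gen
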