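import Pool.Agent.Work.MP_7da6af_nt.Inv
import Pool.Agent.Work.MP_7da6af_nt.Hts

/-! # General version: rational curves over a number field -/

set_option autoImplicit false

namespace Pool.Agent.Work.MP_7da6af_nt.Gen

open NumberField Polynomial

section

variable {k : Type} [Field k]

/-- the value of a polynomial with coefficients in `k` at a point of `K` (`φ : k → K`) -/
noncomputable def ev {K : Type} [Field K] (φ : k →+* K) (y : K) (P : k[X]) : K := P.eval₂ φ y

/-- all three rational functions are regular and nonzero at `y` -/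
def Reg (F : Fin 3 → RatFunc k) {K : Type} [Field K] (φ : k →+* K) (y : K) : Prop :=
  ∀ l, ev φ y (F l).num ≠ 0 ∧ ev φ y (F l).denom ≠ 0

/-- the point of the curve with parameter `y` -/
noncomputable def cu (F : Fin 3 → RatFunc k) {K : Type} [Field K] (φ : k →+* K) (y : K) :
    Fin 3 → K :=
  fun l => ev φ y (F l).num / ev φ y (F l).denom

/-- the logarithmic vector of the point of the curve, for an embedding `σ : k → ℂ` -/
noncomputable def Lr (F : Fin 3 → RatFunc k) (σ : k →+* ℂ) (z : ℂ) : Fin 3 → ℝ :=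
  fun l => Real.log ‖cu F σ z l‖

/-- every line through the origin meets (bounded parts of) the amoeba of the curve in finitely many
points -/
def StarP (F : Fin 3 → RatFunc k) (σ : k →+* ℂ) : Prop :=
  ∀ d : Fin 3 → ℝ, d ≠ 0 → ∀ S R : ℝ,
    {z : ℂ | ‖z‖ ≤ R ∧ Reg F σ z ∧ (∀ l, |Lr F σ z l| ≤ S) ∧ ∃ s : ℝ, Lr F σ z = s • d}.Finite

end

variable {k : Type} [Field k] [NumberField k]

/-- the constants at a place: `ar p + ∑ |log |q|_p|` -/
noncomputable def cst (S : Finset k) {K : Type} [Field K] [NumberField K] (φ : k →+* K)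
    (p : Pl K) : ℝ :=
  ar p + ∑ q ∈ S, |lg p (φ q)|

/-- points of the curve with one real relation have bounded height -/
def C2 (F : Fin 3 → RatFunc k) : Prop := ∃ B : ℝ, 0 ≤ B ∧
  ∀ (K : Type) [Field K] [NumberField K] (φ : k →+* K) (y : K), Reg F φ y →
    ∀ κ : Fin 3 → ℝ, κ ≠ 0 → (∀ p : Pl K, ∑ j, κ j * lg p (cu F φ y j) = 0) →
      hh y ≤ B * dg K

/-- the data of a surface -/
structure Dat (k : Type) [Field k] [NumberField k] where
  F : Fin 3 → RatFunc k
  u : k[X]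
  v : k[X]
  w : k[X]
  hu : u ≠ 0
  hv : v ≠ 0
  hw : w ≠ 0
  c2 : C2 F
  star : ∀ σ : k →+* ℂ, StarP F σ

/-- the points which are studied -/
structure Pt (D : Dat k) (K : Type) [Field K] [NumberField K] (φ : k →+* K) (x z y : K) :
    Prop where
  hx : x ≠ 0
  hz : z ≠ 0
  hreg : Reg D.F φ y
  hu : ev φ y D.u ≠ 0
  hv : ev φ y D.v ≠ 0
  hw : ev φ y D.w ≠ 0
  heq : ev φ y D.u * x + ev φ y D.v * z = ev φ y D.w
  rel : ∃ κ : Fin 3 → ℤ, κ ≠ 0 ∧ mon (cu D.F φ y) κ = 1
  dep : ∃ m : ℕ, 0 < m ∧ (∃ c : Fin 3 → ℤ, x ^ m = mon (cu D.F φ y) c) ∧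
    ∃ d : Fin 3 → ℤ, z ^ m = mon (cu D.F φ y) d

theorem cu_ne_zero {F : Fin 3 → RatFunc k} {K : Type} [Field K] {φ : k →+* K} {y : K}
    (h : Reg F φ y) (l : Fin 3) : cu F φ y l ≠ 0 :=
  div_ne_zero (h l).1 (h l).2

end Pool.Agent.Work.MP_7da6af_nt.Gen
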