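import Pool.Agent.Work.MP_7da6af_nt.Gen.Defs
import Pool.Agent.Work.MP_7da6af_nt.SiegelPoly
import Pool.Agent.Work.MP_7da6af_nt.Cluster

/-! # Integer polynomials which are small on clusters -/

set_option autoImplicit false

namespace Pool.Agent.Work.MP_7da6af_nt.Gen

open Polynomial

namespace Clu

open Pool.Agent.Work.MP_7da6af_nt.Clu

variable {k : Type} [Field k]

theorem continuous_ev (σ : k →+* ℂ) (P : k[X]) : Continuous fun z : ℂ => ev σ z P := by
  have : (fun z : ℂ => ev σ z P) = fun z : ℂ => (P.map σ).eval z := by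
    funext z
    rw [eval_map]
    rfl
  rw [this]
  exact Polynomial.continuous _

/-- the points with bounded logarithmic vector -/
def KS (F : Fin 3 → RatFunc k) (σ : k →+* ℂ) (S R : ℝ) : Set ℂ :=
  {z | ‖z‖ ≤ R} ∩ ⋂ l, ({z | ‖ev σ z (F l).num‖ ≤ Real.exp S * ‖ev σ z (F l).denom‖} ∩
    {z | ‖ev σ z (F l).denom‖ ≤ Real.exp S * ‖ev σ z (F l).num‖})

theorem isCompact_KS (F : Fin 3 → RatFunc k) (σ : k →+* ℂ) (S R : ℝ) :
    IsCompact (KS F σ S R) := by
  have h1 : IsClosed (KS F σ S R) := by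
    refine (isClosed_le continuous_norm continuous_const).inter (isClosed_iInter fun l => ?_)
    have c1 := (continuous_ev σ (F l).num).norm
    have c2 := (continuous_ev σ (F l).denom).norm
    exact (isClosed_le c1 (continuous_const.mul c2)).inter
      (isClosed_le c2 (continuous_const.mul c1))
  refine (isCompact_closedBall (0 : ℂ) R).of_isClosed_subset h1 fun z hz => ?_
  rw [mem_closedBall_zero_iff]
  exact hz.1

theorem mem_KS_of {F : Fin 3 → RatFunc k} {σ : k →+* ℂ} {S R : ℝ} {z : ℂ} (hR : ‖z‖ ≤ R)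
    (hz : Reg F σ z) (h : ∀ l, |Lr F σ z l| ≤ S) : z ∈ KS F σ S R := by
  refine ⟨hR, Set.mem_iInter.2 fun l => ?_⟩
  have hn : 0 < ‖ev σ z (F l).num‖ := norm_pos_iff.2 (hz l).1
  have hd : 0 < ‖ev σ z (F l).denom‖ := norm_pos_iff.2 (hz l).2
  have h1 := h l
  unfold Lr cu at h1
  rw [norm_div, abs_le] at h1
  have hpos : 0 < ‖ev σ z (F l).num‖ / ‖ev σ z (F l).denom‖ := div_pos hn hd
  constructor
  · have h2 := (Real.log_le_iff_le_exp hpos).1 h1.2
    rw [div_le_iff₀ hd] at h2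
    exact h2
  · have h2 := (Real.le_log_iff_exp_le hpos).1 h1.1
    rw [le_div_iff₀ hd, Real.exp_neg] at h2
    have h3 : Real.exp S * ((Real.exp S)⁻¹ * ‖ev σ z (F l).denom‖) ≤
        Real.exp S * ‖ev σ z (F l).num‖ := mul_le_mul_of_nonneg_left h2 (Real.exp_pos S).le
    rwa [← mul_assoc, mul_inv_cancel₀ (Real.exp_pos S).ne', one_mul] at h3

theorem of_mem_KS {F : Fin 3 → RatFunc k} {σ : k →+* ℂ} {S R : ℝ} {z : ℂ} (hz : z ∈ KS F σ S R) :
    ‖z‖ ≤ R ∧ Reg F σ z ∧ ∀ l, |Lr F σ z l| ≤ S := by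
  have hex : ∀ l, ‖ev σ z (F l).num‖ ≤ Real.exp S * ‖ev σ z (F l).denom‖ ∧
      ‖ev σ z (F l).denom‖ ≤ Real.exp S * ‖ev σ z (F l).num‖ := fun l => by
    have := hz.2
    rw [Set.mem_iInter] at this
    exact this l
  have hcop : ∀ l, ¬ (ev σ z (F l).num = 0 ∧ ev σ z (F l).denom = 0) := by
    intro l h
    obtain ⟨A, B, hAB⟩ := RatFunc.isCoprime_num_denom (F l)
    have h1 := congrArg (fun P => Polynomial.eval₂ σ z P) hAB
    simp only [eval₂_add, eval₂_mul, eval₂_one] at h1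
    have h2 : Polynomial.eval₂ σ z (F l).num = 0 := h.1
    have h3 : Polynomial.eval₂ σ z (F l).denom = 0 := h.2
    rw [h2, h3, mul_zero, mul_zero, add_zero] at h1
    exact zero_ne_one h1
  have hreg : Reg F σ z := by
    intro l
    obtain ⟨h1, h2⟩ := hex l
    constructor
    · intro h0
      rw [h0, norm_zero, mul_zero] at h2
      exact hcop l ⟨h0, norm_le_zero_iff.1 h2⟩
    · intro h0
      rw [h0, norm_zero, mul_zero] at h1
      exact hcop l ⟨norm_le_zero_iff.1 h1, h0⟩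
  refine ⟨hz.1, hreg, fun l => ?_⟩
  obtain ⟨h1, h2⟩ := hex l
  have hn : 0 < ‖ev σ z (F l).num‖ := norm_pos_iff.2 (hreg l).1
  have hd : 0 < ‖ev σ z (F l).denom‖ := norm_pos_iff.2 (hreg l).2
  have hpos : 0 < ‖ev σ z (F l).num‖ / ‖ev σ z (F l).denom‖ := div_pos hn hd
  unfold Lr cu
  rw [norm_div, abs_le]
  constructor
  · rw [Real.le_log_iff_exp_le hpos, le_div_iff₀ hd, Real.exp_neg]
    have h3 : (Real.exp S)⁻¹ * ‖ev σ z (F l).denom‖ ≤
        (Real.exp S)⁻¹ * (Real.exp S * ‖ev σ z (F l).num‖) :=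
      mul_le_mul_of_nonneg_left h2 (inv_nonneg.2 (Real.exp_pos S).le)
    rwa [← mul_assoc, inv_mul_cancel₀ (Real.exp_pos S).ne', one_mul] at h3
  · rw [Real.log_le_iff_le_exp hpos, div_le_iff₀ hd]
    exact h1

theorem continuousOn_Lr (F : Fin 3 → RatFunc k) (σ : k →+* ℂ) (S R : ℝ) (l : Fin 3) :
    ContinuousOn (fun z => Lr F σ z l) (KS F σ S R) := by
  have c1 := (continuous_ev σ (F l).num).continuousOn (s := KS F σ S R)
  have c2 := (continuous_ev σ (F l).denom).continuousOn (s := KS F σ S R)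
  have c3 : ContinuousOn (fun z => cu F σ z l) (KS F σ S R) :=
    c1.div c2 fun z hz => ((of_mem_KS hz).2.1 l).2
  exact c3.norm.log fun z hz =>
    (norm_pos_iff.2 (div_ne_zero ((of_mem_KS hz).2.1 l).1 ((of_mem_KS hz).2.1 l).2)).ne'

/-- the polynomial is small near the rays -/
theorem near_rays (F : Fin 3 → RatFunc k) (σ : k →+* ℂ) (S R : ℝ) (d0 : Fin 3 → Fin 3 → ℝ)
    (Q : ℤ[X]) (η : ℝ) (hη : 0 < η) (hQ : ∀ z ∈ KS F σ S R, ∀ (j : Fin 3) (s : ℝ),
      Lr F σ z = s • d0 j → ‖aeval z Q‖ ≤ η) :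
    ∃ r : ℝ, 0 < r ∧ ∀ r' : ℝ, 0 < r' → r' ≤ r → ∀ d : Fin 3 → Fin 3 → ℝ, (∀ j, ‖d j‖ = 1) →
      dist d d0 < r' →
      ∀ z ∈ KS F σ S R, ∀ (j : Fin 3) (s : ℝ), 0 ≤ s →
        (∀ l, |Lr F σ z l - s * d j l| ≤ r' / 2) → ‖aeval z Q‖ ≤ 2 * η := by
  -- the compact sets
  let DD : Set (Fin 3 → Fin 3 → ℝ) := Set.univ.pi fun _ => Metric.sphere 0 1
  have hDD : IsCompact DD := isCompact_univ_pi fun _ => isCompact_sphere _ _
  let X0 : Set (((Fin 3 → Fin 3 → ℝ) × ℝ) × (ℂ × ℝ)) :=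
    (DD ×ˢ Set.Icc 0 1) ×ˢ (KS F σ S R ×ˢ Set.Icc 0 (S + 1))
  have hX0 : IsCompact X0 :=
    (hDD.prod isCompact_Icc).prod ((isCompact_KS F σ S R).prod isCompact_Icc)
  let f : Fin 3 → Fin 3 → ((Fin 3 → Fin 3 → ℝ) × ℝ) × (ℂ × ℝ) → ℝ := fun j l x =>
    |Lr F σ x.2.1 l - x.2.2 * x.1.1 j l| - x.1.2
  have hf : ∀ j l, ContinuousOn (f j l) X0 := by
    intro j l
    have h1 : ContinuousOn (fun x : ((Fin 3 → Fin 3 → ℝ) × ℝ) × (ℂ × ℝ) =>
        Lr F σ x.2.1 l) X0 := by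
      refine (continuousOn_Lr F σ S R l).comp (Continuous.continuousOn (by fun_prop)) ?_
      intro x hx
      exact hx.2.1
    have h2 : ContinuousOn (fun x : ((Fin 3 → Fin 3 → ℝ) × ℝ) × (ℂ × ℝ) =>
        x.2.2 * x.1.1 j l) X0 := Continuous.continuousOn (by fun_prop)
    have h3 : ContinuousOn (fun x : ((Fin 3 → Fin 3 → ℝ) × ℝ) × (ℂ × ℝ) =>
        x.1.2) X0 := Continuous.continuousOn (by fun_prop)
    exact (h1.sub h2).abs.sub h3
  let Cj : Fin 3 → Set (((Fin 3 → Fin 3 → ℝ) × ℝ) × (ℂ × ℝ)) := fun j =>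
    (⋂ l, X0 ∩ f j l ⁻¹' Set.Iic 0) ∩ {x | 2 * η ≤ ‖aeval x.2.1 Q‖}
  have hCj : ∀ j, IsCompact (Cj j) := by
    intro j
    have h1 : IsClosed (Cj j) := by
      refine IsClosed.inter (isClosed_iInter fun l =>
        (hf j l).preimage_isClosed_of_isClosed hX0.isClosed isClosed_Iic) ?_
      exact isClosed_le continuous_const
        ((continuous_aeval_int Q).comp (continuous_fst.comp continuous_snd)).norm
    refine hX0.of_isClosed_subset h1 fun x hx => ?_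
    have := hx.1
    rw [Set.mem_iInter] at this
    exact (this 0).1
  let U : Set ((Fin 3 → Fin 3 → ℝ) × ℝ) := (⋃ j, Prod.fst '' Cj j)ᶜ
  have hU : IsOpen U := by
    have hcl : IsClosed (⋃ j, Prod.fst '' Cj j) :=
      isClosed_iUnion_of_finite fun j => ((hCj j).image continuous_fst).isClosed
    exact hcl.isOpen_compl
  have h0 : (d0, (0 : ℝ)) ∈ U := by
    intro hmem
    rw [Set.mem_iUnion] at hmem
    obtain ⟨j, x, hx, hx0⟩ := hmem
    have h1 := hx.1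
    rw [Set.mem_iInter] at h1
    have hx1 : x.1.1 = d0 := by rw [hx0]
    have hx2 : x.1.2 = 0 := by rw [hx0]
    have hz := (h1 0).1.2.1
    have hL : Lr F σ x.2.1 = x.2.2 • d0 j := by
      funext l
      have h2 := (h1 l).2
      rw [Set.mem_preimage, Set.mem_Iic] at h2
      simp only [f] at h2
      rw [hx1, hx2, sub_zero] at h2
      have h3 := abs_eq_zero.1 (le_antisymm h2 (abs_nonneg _))
      rw [Pi.smul_apply, smul_eq_mul]
      linarith
    have h2 := hQ _ hz j _ hL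
    have h3 : 2 * η ≤ ‖aeval x.2.1 Q‖ := hx.2
    linarith
  obtain ⟨r, hr, hball⟩ := Metric.isOpen_iff.1 hU _ h0
  refine ⟨min r 1, by positivity, fun r' hr' hr'le d hd hdist z hz j s hs hl => ?_⟩
  by_contra hcon
  push Not at hcon
  have hmr := min_le_left r 1
  have hm1 := min_le_right r 1
  have hS := (of_mem_KS hz).2.2
  -- the bound for `s`
  have hs1 : s ≤ S + 1 := by
    obtain ⟨l, hl1⟩ : ∃ l, |d j l| = 1 := by
      have h1 := hd j
      by_contra hcon'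
      push Not at hcon'
      have h2 : ‖d j‖ < 1 := by
        rw [pi_norm_lt_iff one_pos]
        intro l
        refine lt_of_le_of_ne ?_ (by rw [Real.norm_eq_abs]; exact hcon' l)
        rw [← h1]
        exact norm_le_pi_norm (d j) l
      linarith
    have h2 := hl l
    have h3 := hS l
    have h4 : |s * d j l| ≤ |Lr F σ z l| + |Lr F σ z l - s * d j l| := by
      have : s * d j l = Lr F σ z l - (Lr F σ z l - s * d j l) := by ring
      calc |s * d j l| = |Lr F σ z l - (Lr F σ z l - s * d j l)| := by rw [← this]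
        _ ≤ _ := abs_sub _ _
    rw [abs_mul, hl1, mul_one, abs_of_nonneg hs] at h4
    linarith
  have hmem : ((d, r' / 2), (z, s)) ∈ Cj j := by
    refine ⟨?_, hcon.le⟩
    rw [Set.mem_iInter]
    intro l
    refine ⟨⟨⟨?_, ?_⟩, hz, hs, hs1⟩, ?_⟩
    · intro j' _
      rw [mem_sphere_zero_iff_norm]
      exact hd j'
    · exact ⟨by positivity, by linarith⟩
    · rw [Set.mem_preimage, Set.mem_Iic]
      simp only [f]
      have := hl l
      linarith
  have hnot : (d, r' / 2) ∉ ⋃ j, Prod.fst '' Cj j := by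
    refine hball ?_
    rw [Metric.mem_ball, Prod.dist_eq, max_lt_iff]
    refine ⟨by simp only; linarith, ?_⟩
    rw [Real.dist_eq, sub_zero, abs_of_pos (by positivity)]
    linarith
  exact hnot (Set.mem_iUnion.2 ⟨j, _, hmem, rfl⟩)

/-- the estimate of the average -/
theorem average {B : ℝ} (hB : 0 ≤ B) {N : ℕ} {Q : ℤ[X]} {η T M : ℝ}
    (hN : Q.natDegree ≤ N) (hη : 0 < η) (hT1 : 1 ≤ T) (hT : ∀ i, |(Q.coeff i : ℝ)| ≤ T)
    (hM : Real.log η + Real.log T ≤ -M)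
    (hMN : 2 * (1 + Real.log (N + 1) + 2 * (N * B)) + 2 ≤ M)
    (ι : Type) [Fintype ι] (m : ι → ℝ) (z : ι → ℂ) (v : ι → ℝ) (hv : ∀ i, 0 ≤ v i)
    (hm : ∀ i, 0 ≤ m i) (hm1 : ∑ i, m i = 1)
    (hsum : ∑ i, m i * (max 0 (Real.log ‖z i‖) + v i) ≤ B)
    (bad : Finset ι) (hbad : ∑ i ∈ bad, m i ≤ 1 / 10)
    (hgood : ∀ i ∉ bad, max 0 (Real.log ‖z i‖) + v i ≤ 10 * B + 1 → ‖aeval (z i) Q‖ ≤ 2 * η)
    (hne : ∀ i, aeval (z i) Q ≠ 0) :
    ∑ i, m i * Real.log ‖aeval (z i) Q‖ < -(Q.natDegree * B) := by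
  classical
  set w : ι → ℝ := fun i => max 0 (Real.log ‖z i‖) + v i with hw
  have hw0 : ∀ i, 0 ≤ w i := fun i => add_nonneg (le_max_left _ _) (hv i)
  have hwlog : ∀ i, max 0 (Real.log ‖z i‖) ≤ w i := fun i => le_add_of_nonneg_right (hv i)
  set bad2 : Finset ι := Finset.univ.filter fun i => 10 * B + 1 < w i with hbad2
  -- Markov
  have hmark : ∑ i ∈ bad2, m i ≤ 1 / 10 := by
    have h1 : (10 * B + 1) * ∑ i ∈ bad2, m i ≤ ∑ i, m i * w i := by
      rw [Finset.mul_sum]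
      calc ∑ i ∈ bad2, (10 * B + 1) * m i ≤ ∑ i ∈ bad2, m i * w i := by
            refine Finset.sum_le_sum fun i hi => ?_
            rw [mul_comm]
            exact mul_le_mul_of_nonneg_left (Finset.mem_filter.1 hi).2.le (hm i)
        _ ≤ ∑ i, m i * w i := Finset.sum_le_sum_of_subset_of_nonneg (Finset.subset_univ _)
            fun i _ _ => mul_nonneg (hm i) (hw0 i)
    have h2 : (10 * B + 1) * ∑ i ∈ bad2, m i ≤ B := h1.trans hsum
    have h3 : 0 ≤ ∑ i ∈ bad2, m i := Finset.sum_nonneg fun i _ => hm i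
    nlinarith
  set A : Finset ι := bad ∪ bad2 with hA
  have hAw : ∑ i ∈ A, m i ≤ 1 / 5 := by
    have h1 : ∑ i ∈ A, m i ≤ ∑ i ∈ bad, m i + ∑ i ∈ bad2, m i := by
      rw [hA, ← Finset.sum_union_inter]
      exact le_add_of_nonneg_right (Finset.sum_nonneg fun i _ => hm i)
    linarith
  have hA0 : 0 ≤ ∑ i ∈ A, m i := Finset.sum_nonneg fun i _ => hm i
  have hsplit : ∑ i ∈ A, m i + ∑ i ∈ Aᶜ, m i = 1 := by
    rw [Finset.sum_add_sum_compl, hm1]
  have hT0 : 0 < T := by linarith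
  have hlogT : 0 ≤ Real.log T := Real.log_nonneg hT1
  have hN1 : (0 : ℝ) < N + 1 := by positivity
  have hlogN : 0 ≤ Real.log (N + 1) := Real.log_nonneg (by
    have : (0 : ℝ) ≤ N := Nat.cast_nonneg N
    linarith)
  have hNB : 0 ≤ (N : ℝ) * B := by positivity
  -- bound on the good points
  have hg : ∀ i ∈ Aᶜ, m i * Real.log ‖aeval (z i) Q‖ ≤ m i * Real.log (2 * η) := by
    intro i hi
    rw [Finset.mem_compl, hA, Finset.mem_union, not_or] at hi
    have h1 : w i ≤ 10 * B + 1 := by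
      by_contra hcon
      exact hi.2 (Finset.mem_filter.2 ⟨Finset.mem_univ _, not_le.1 hcon⟩)
    have h2 := hgood i hi.1 h1
    exact mul_le_mul_of_nonneg_left (Real.log_le_log (norm_pos_iff.2 (hne i)) h2) (hm i)
  -- bound on the other points
  have hb : ∀ i ∈ A, m i * Real.log ‖aeval (z i) Q‖ ≤
      m i * (Real.log (N + 1) + Real.log T) + N * (m i * w i) := by
    intro i _
    have h1 := norm_aeval_le Q N hN T hT (z i)
    have h2 : Real.log ‖aeval (z i) Q‖ ≤ Real.log (N + 1) + Real.log T +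
        N * max 0 (Real.log ‖z i‖) := by
      have h3 : 0 < max 1 ‖z i‖ := lt_of_lt_of_le one_pos (le_max_left _ _)
      have h4 := Real.log_le_log (norm_pos_iff.2 (hne i)) h1
      rw [Real.log_mul (by positivity) (by positivity), Real.log_mul hN1.ne' hT0.ne',
        Real.log_pow] at h4
      have h5 : Real.log (max 1 ‖z i‖) ≤ max 0 (Real.log ‖z i‖) := by
        rcases le_total ‖z i‖ 1 with h | h
        · rw [max_eq_left h, Real.log_one]
          exact le_max_left _ _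
        · rw [max_eq_right h]
          exact le_max_right _ _
      have h6 : (N : ℝ) * Real.log (max 1 ‖z i‖) ≤ N * max 0 (Real.log ‖z i‖) :=
        mul_le_mul_of_nonneg_left h5 (Nat.cast_nonneg N)
      linarith
    have h3 : (N : ℝ) * max 0 (Real.log ‖z i‖) ≤ N * w i :=
      mul_le_mul_of_nonneg_left (hwlog i) (Nat.cast_nonneg N)
    calc m i * Real.log ‖aeval (z i) Q‖
        ≤ m i * (Real.log (N + 1) + Real.log T + N * w i) :=
          mul_le_mul_of_nonneg_left (by linarith) (hm i)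
      _ = _ := by ring
  have hlog2 : Real.log 2 ≤ 1 := by
    have := Real.log_two_lt_d9
    linarith
  have hlog2' : 0 ≤ Real.log 2 := Real.log_nonneg (by norm_num)
  have hlogη : Real.log (2 * η) = Real.log 2 + Real.log η :=
    Real.log_mul (by norm_num) hη.ne'
  have hη2 : Real.log (2 * η) ≤ 1 - M - Real.log T := by
    rw [hlogη]
    linarith
  have hη3 : Real.log (2 * η) ≤ 0 := by linarith
  -- sum up
  have h1 : ∑ i, m i * Real.log ‖aeval (z i) Q‖ ≤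
      (∑ i ∈ A, m i) * (Real.log (N + 1) + Real.log T) + N * B +
        (∑ i ∈ Aᶜ, m i) * Real.log (2 * η) := by
    rw [← Finset.sum_add_sum_compl A]
    have h2 := Finset.sum_le_sum hb
    have h3 := Finset.sum_le_sum hg
    rw [Finset.sum_add_distrib, ← Finset.sum_mul, ← Finset.mul_sum] at h2
    rw [← Finset.sum_mul] at h3
    have h4 : ∑ i ∈ A, m i * w i ≤ B :=
      (Finset.sum_le_sum_of_subset_of_nonneg (Finset.subset_univ _)
        fun i _ _ => mul_nonneg (hm i) (hw0 i)).trans hsum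
    have h5 : (N : ℝ) * ∑ i ∈ A, m i * w i ≤ N * B :=
      mul_le_mul_of_nonneg_left h4 (Nat.cast_nonneg N)
    linarith
  have h2 : (∑ i ∈ A, m i) * (Real.log (N + 1) + Real.log T) ≤
      1 / 5 * (Real.log (N + 1) + Real.log T) :=
    mul_le_mul_of_nonneg_right hAw (by linarith)
  have h3 : (∑ i ∈ Aᶜ, m i) * Real.log (2 * η) ≤ 4 / 5 * Real.log (2 * η) := by
    have h4 : 4 / 5 ≤ ∑ i ∈ Aᶜ, m i := by linarith
    nlinarith
  have h4 : (Q.natDegree : ℝ) * B ≤ N * B :=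
    mul_le_mul_of_nonneg_right (by exact_mod_cast hN) hB
  linarith

end Clu

open _root_.Pool.Agent.Work.MP_7da6af_nt.Gen.Clu _root_.Pool.Agent.Work.MP_7da6af_nt.Clu

theorem cluster {k : Type} [Field k] [NumberField k] (F : Fin 3 → RatFunc k)
    (hstar : ∀ σ : k →+* ℂ, StarP F σ) (B : ℝ) (hB : 0 ≤ B) :
    ∃ (ε : ℝ) (QQ : Finset ℤ[X]), 0 < ε ∧ (∀ Q ∈ QQ, Q ≠ 0) ∧
      ∀ (d : Fin 3 → Fin 3 → ℝ), (∀ j, ‖d j‖ = 1) →
      ∀ (ι : Type) [Fintype ι] (m : ι → ℝ) (z : ι → ℂ) (σ : ι → (k →+* ℂ)),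
        (∀ i, 0 ≤ m i) → ∑ i, m i = 1 → (∀ i, Reg F (σ i) (z i)) →
        (∑ i, m i * (max 0 (Real.log ‖z i‖) + ∑ l, |Lr F (σ i) (z i) l|) ≤ B) →
        (∃ bad : Finset ι, ∑ i ∈ bad, m i ≤ 1 / 10 ∧
          ∀ i ∉ bad, ∃ (j : Fin 3) (s : ℝ), 0 ≤ s ∧
            ∀ l, |Lr F (σ i) (z i) l - s * d j l| ≤ ε) →
        ∃ Q ∈ QQ, (∃ i, aeval (z i) Q = 0) ∨
          ∑ i, m i * Real.log ‖aeval (z i) Q‖ < -(Q.natDegree * B) := by
  classical
  let DD : Set (Fin 3 → Fin 3 → ℝ) := Set.univ.pi fun _ => Metric.sphere 0 1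
  have hDD : IsCompact DD := isCompact_univ_pi fun _ => isCompact_sphere _ _
  have hmemDD : ∀ d : Fin 3 → Fin 3 → ℝ, d ∈ DD ↔ ∀ j, ‖d j‖ = 1 := by
    intro d
    simp only [DD, Set.mem_univ_pi, mem_sphere_zero_iff_norm]
  set S : ℝ := 10 * B + 1 with hS
  -- the polynomial for each point of `DD`
  have hloc : ∀ d0 : DD, ∃ (Q : ℤ[X]) (r : ℝ), Q ≠ 0 ∧ 0 < r ∧
      ∀ (d : Fin 3 → Fin 3 → ℝ), (∀ j, ‖d j‖ = 1) → dist d d0 < r →
      ∀ (ι : Type) [Fintype ι] (m : ι → ℝ) (z : ι → ℂ) (σ : ι → (k →+* ℂ)),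
        (∀ i, 0 ≤ m i) → ∑ i, m i = 1 → (∀ i, Reg F (σ i) (z i)) →
        (∑ i, m i * (max 0 (Real.log ‖z i‖) + ∑ l, |Lr F (σ i) (z i) l|) ≤ B) →
        (∃ bad : Finset ι, ∑ i ∈ bad, m i ≤ 1 / 10 ∧
          ∀ i ∉ bad, ∃ (j : Fin 3) (s : ℝ), 0 ≤ s ∧
            ∀ l, |Lr F (σ i) (z i) l - s * d j l| ≤ r / 2) →
        (∃ i, aeval (z i) Q = 0) ∨
          ∑ i, m i * Real.log ‖aeval (z i) Q‖ < -(Q.natDegree * B) := by
    rintro ⟨d0, hd0⟩
    rw [hmemDD] at hd0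
    let Z : Set ℂ := ⋃ σ : k →+* ℂ, ⋃ j : Fin 3, {z : ℂ | ‖z‖ ≤ Real.exp S ∧ Reg F σ z ∧
      (∀ l, |Lr F σ z l| ≤ S) ∧ ∃ s : ℝ, Lr F σ z = s • d0 j}
    have hZ : Z.Finite := by
      refine Set.finite_iUnion fun σ => Set.finite_iUnion fun j => hstar σ (d0 j) ?_ _ _
      intro h
      have := hd0 j
      rw [h, norm_zero] at this
      exact zero_ne_one this
    obtain ⟨N, _, hNM⟩ := siegelPoly Z hZ
    obtain ⟨Q, η, T, hQ0, hQN, hη, hT1, hT, hQZ, hM⟩ :=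
      hNM (2 * (1 + Real.log (N + 1) + 2 * (N * B)) + 2)
    have hnear := fun σ : k →+* ℂ => near_rays F σ S (Real.exp S) d0 Q η hη (by
      intro z hz j s hs
      refine hQZ z ?_
      obtain ⟨h1, h2, h3⟩ := of_mem_KS hz
      exact Set.mem_iUnion.2 ⟨σ, Set.mem_iUnion.2 ⟨j, h1, h2, h3, s, hs⟩⟩)
    choose r hr hnear using hnear
    obtain ⟨r0, hr0, hr0le⟩ := exists_pos_le (Finset.univ : Finset (k →+* ℂ)) r (fun σ _ => hr σ)
    refine ⟨Q, r0, hQ0, hr0, ?_⟩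
    intro d hd hdist ι _ m z σ hm hm1 hz hsum hbad
    obtain ⟨bad, hb1, hb2⟩ := hbad
    by_cases hne : ∃ i, aeval (z i) Q = 0
    · exact Or.inl hne
    · refine Or.inr ?_
      push Not at hne
      refine average hB hQN hη hT1 hT hM le_rfl ι m z (fun i => ∑ l, |Lr F (σ i) (z i) l|)
        (fun i => Finset.sum_nonneg fun l _ => abs_nonneg _) hm hm1 hsum bad hb1 ?_ hne
      intro i hi hw
      obtain ⟨j, s, hs, h⟩ := hb2 i hi
      have hl : ∀ l, |Lr F (σ i) (z i) l| ≤ S := by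
        intro l
        have h3 : |Lr F (σ i) (z i) l| ≤ ∑ l, |Lr F (σ i) (z i) l| :=
          Finset.single_le_sum (f := fun l => |Lr F (σ i) (z i) l|) (fun _ _ => abs_nonneg _)
            (Finset.mem_univ l)
        have h4 : (0 : ℝ) ≤ max 0 (Real.log ‖z i‖) := le_max_left _ _
        linarith
      have hR : ‖z i‖ ≤ Real.exp S := by
        rcases eq_or_lt_of_le (norm_nonneg (z i)) with h0 | h0
        · rw [← h0]
          exact (Real.exp_pos S).le
        · rw [← Real.log_le_iff_le_exp h0]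
          have h3 : 0 ≤ ∑ l, |Lr F (σ i) (z i) l| := Finset.sum_nonneg fun l _ => abs_nonneg _
          have h4 : Real.log ‖z i‖ ≤ max 0 (Real.log ‖z i‖) := le_max_right _ _
          linarith
      exact hnear (σ i) r0 hr0 (hr0le _ (Finset.mem_univ _)) d hd hdist (z i)
        (mem_KS_of hR (hz i) hl) j s hs h
  choose Q r hQ0 hr hmain using hloc
  obtain ⟨t, ht⟩ := hDD.elim_nhds_subcover' (fun d0 hd0 => Metric.ball d0 (r ⟨d0, hd0⟩))
    (fun d0 hd0 => Metric.ball_mem_nhds _ (hr _))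
  obtain ⟨ε, hε, hεt⟩ := exists_pos_le t (fun d0 => r d0 / 2) (fun d0 _ => half_pos (hr d0))
  refine ⟨ε, t.image Q, hε, ?_, ?_⟩
  · intro P hP
    rw [Finset.mem_image] at hP
    obtain ⟨d0, _, rfl⟩ := hP
    exact hQ0 d0
  · intro d hd ι _ m z σ hm hm1 hz hsum hbad
    have h1 := ht ((hmemDD d).2 hd)
    rw [Set.mem_iUnion₂] at h1
    obtain ⟨d0, hd0, hball⟩ := h1
    rw [Metric.mem_ball] at hball
    refine ⟨Q d0, Finset.mem_image_of_mem Q hd0, ?_⟩
    refine hmain d0 d hd hball ι m z σ hm hm1 hz hsum ?_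
    obtain ⟨bad, hb1, hb2⟩ := hbad
    refine ⟨bad, hb1, fun i hi => ?_⟩
    obtain ⟨j, s, hs, h⟩ := hb2 i hi
    exact ⟨j, s, hs, fun l => (h l).trans (hεt d0 hd0)⟩

end Pool.Agent.Work.MP_7da6af_nt.Gen
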