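import Pool.Agent.Work.MP_7da6af_nt.Gen.Defs

/-! # A criterion for `StarP` -/

set_option autoImplicit false

namespace Pool.Agent.Work.MP_7da6af_nt.Gen

open Polynomial

/-- integer direction through which the linear form `m ↦ ⟨m, d⟩` factors. -/
theorem exists_int_dir (d : Fin 3 → ℝ) (hd : d ≠ 0) :
    ∃ n : Fin 3 → ℤ, n ≠ 0 ∧ ∃ φ : ℝ →+ ℚ, ∀ l, (n l : ℚ) = φ (d l) := by
  obtain ⟨l0, hl0⟩ : ∃ l, d l ≠ 0 := by
    by_contra h
    push Not at h
    exact hd (funext h)
  obtain ⟨φ, hφ⟩ : ∃ φ : Module.Dual ℚ ℝ, φ (d l0) ≠ 0 := by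
    by_contra h
    push Not at h
    exact hl0 ((Module.forall_dual_apply_eq_zero_iff ℚ (d l0)).1 h)
  obtain ⟨N, hN, hint⟩ : ∃ N : ℕ, N ≠ 0 ∧ ∀ l, ∃ z : ℤ, (z : ℚ) = N * φ (d l) := by
    refine ⟨∏ l, (φ (d l)).den, Finset.prod_ne_zero_iff.2 fun l _ => (φ (d l)).den_nz, ?_⟩
    intro l
    refine ⟨(∏ j ∈ Finset.univ.erase l, (φ (d j)).den) * (φ (d l)).num, ?_⟩
    rw [← Finset.mul_prod_erase Finset.univ (fun l => (φ (d l)).den) (Finset.mem_univ l)]
    push_cast
    have := Rat.mul_den_eq_num (φ (d l))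
    rw [← this]
    ring
  choose n hn using hint
  refine ⟨n, ?_, (N : ℚ) • (φ : ℝ →+ ℚ), ?_⟩
  · intro h0
    have := hn l0
    rw [h0] at this
    simp only [Pi.zero_apply, Int.cast_zero] at this
    have h2 : (N : ℚ) ≠ 0 := by exact_mod_cast hN
    rcases mul_eq_zero.1 this.symm with h | h
    · exact h2 h
    · exact hφ h
  · intro l
    rw [hn l]
    simp

/-- distinct real exponentials are linearly independent. -/
theorem exp_indep (s : Finset ℝ) (a : ℝ → ℂ)
    (h : ∀ t : ℝ, ∑ v ∈ s, a v * Complex.exp (2 * t * v) = 0) : ∀ v ∈ s, a v = 0 := by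
  let f : ℝ → (Multiplicative ℝ →* ℂ) := fun v =>
    { toFun := fun t => Complex.exp (2 * (Multiplicative.toAdd t : ℝ) * v)
      map_one' := by simp
      map_mul' := fun x y => by
        rw [← Complex.exp_add, toAdd_mul]
        push_cast
        ring_nf }
  have hf : Function.Injective f := by
    intro v w hvw
    have h1 : ∀ t : ℝ, Complex.exp (2 * t * v) = Complex.exp (2 * t * w) := fun t =>
      DFunLike.congr_fun hvw (Multiplicative.ofAdd t)
    have h2 := h1 (1 / 2)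
    have h3 : Complex.exp (v : ℂ) = Complex.exp (w : ℂ) := by
      convert h2 using 2 <;> push_cast <;> ring
    rw [← Complex.ofReal_exp, ← Complex.ofReal_exp] at h3
    exact Real.exp_injective (Complex.ofReal_injective h3)
  have hli := (linearIndependent_monoidHom (Multiplicative ℝ) ℂ).comp f hf
  rw [linearIndependent_iff'] at hli
  apply hli s a
  funext t
  simp only [Finset.sum_apply, Pi.smul_apply, smul_eq_mul, Function.comp, Pi.zero_apply]
  exact h (Multiplicative.toAdd t)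

/-- the pairing of an exponent vector with a real vector -/
noncomputable def pr (d : Fin 3 → ℝ) (m : Fin 3 →₀ ℕ) : ℝ := ∑ l, (m l : ℝ) * d l

theorem eval_exp (W : MvPolynomial (Fin 3) ℂ) (d : Fin 3 → ℝ) (t : ℂ) :
    MvPolynomial.eval (fun l => Complex.exp (2 * t * d l)) W =
      ∑ m ∈ W.support, W.coeff m * Complex.exp (2 * t * pr d m) := by
  rw [MvPolynomial.eval_eq']
  refine Finset.sum_congr rfl fun m _ => ?_
  congr 1
  rw [show (fun l => Complex.exp (2 * t * d l) ^ m l) =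
    fun l => Complex.exp (m l * (2 * t * d l)) from funext fun l => by rw [Complex.exp_nat_mul],
    ← Complex.exp_sum]
  congr 1
  rw [pr]
  push_cast
  rw [Finset.mul_sum]
  exact Finset.sum_congr rfl fun l _ => by ring

/-- If `W` vanishes on a real one parameter subgroup, it vanishes on a subtorus. -/
theorem exists_torus (W : MvPolynomial (Fin 3) ℂ) (d : Fin 3 → ℝ) (hd : d ≠ 0)
    (h : ∀ t : ℝ, MvPolynomial.eval (fun l => Complex.exp (2 * t * d l)) W = 0) :
    ∃ n : Fin 3 → ℤ, n ≠ 0 ∧ ∀ τ : ℂ, τ ≠ 0 → MvPolynomial.eval (fun l => τ ^ n l) W = 0 := by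
  classical
  obtain ⟨n, hn, φ, hφ⟩ := exists_int_dir d hd
  refine ⟨n, hn, fun τ hτ => ?_⟩
  set s := W.support.image (pr d) with hs
  set a : ℝ → ℂ := fun v => ∑ m ∈ W.support.filter (fun m => pr d m = v), W.coeff m with ha
  have h1 : ∀ v ∈ s, a v = 0 := by
    apply exp_indep
    intro t
    rw [← h t, eval_exp, ← Finset.sum_fiberwise_of_maps_to (s := W.support) (t := s) (g := pr d)
      (fun m hm => Finset.mem_image_of_mem _ hm)]
    refine Finset.sum_congr rfl fun v _ => ?_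
    rw [ha, Finset.sum_mul]
    refine Finset.sum_congr rfl fun m hm => ?_
    rw [(Finset.mem_filter.1 hm).2]
  have hpr : ∀ m : Fin 3 →₀ ℕ, ((∑ l, (m l : ℤ) * n l : ℤ) : ℚ) = φ (pr d m) := by
    intro m
    rw [pr, map_sum]
    push_cast
    refine Finset.sum_congr rfl fun l _ => ?_
    rw [hφ l, ← nsmul_eq_mul, ← nsmul_eq_mul, map_nsmul]
  have hmono : ∀ m : Fin 3 →₀ ℕ, (∏ l, (τ ^ n l) ^ m l : ℂ) = τ ^ (∑ l, (m l : ℤ) * n l) := by
    intro m
    simp only [Fin.sum_univ_three, Fin.prod_univ_three]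
    rw [zpow_add₀ hτ, zpow_add₀ hτ]
    simp only [← zpow_natCast, ← zpow_mul]
    simp only [mul_comm]
  rw [MvPolynomial.eval_eq', ← Finset.sum_fiberwise_of_maps_to (s := W.support) (t := s)
    (g := pr d) (fun m hm => Finset.mem_image_of_mem _ hm)]
  apply Finset.sum_eq_zero
  intro v hv
  obtain ⟨m0, hm0, rfl⟩ := Finset.mem_image.1 hv
  have h2 : ∀ m ∈ W.support.filter (fun m => pr d m = pr d m0),
      W.coeff m * ∏ l, (τ ^ n l) ^ m l = W.coeff m * τ ^ (∑ l, (m0 l : ℤ) * n l) := by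
    intro m hm
    rw [hmono]
    congr 2
    have h3 := hpr m
    rw [(Finset.mem_filter.1 hm).2, ← hpr m0] at h3
    exact_mod_cast h3
  rw [Finset.sum_congr rfl h2, ← Finset.sum_mul]
  have := h1 _ hv
  rw [ha] at this
  simp only at this
  rw [this, zero_mul]

variable {k : Type} [Field k]

/-- `W` is a polynomial relation between the squares of the absolute values of the coordinates of
the curve, and the hypersurface `W = 0` contains no one dimensional subtorus. -/
theorem star_of (F : Fin 3 → RatFunc k) (σ : k →+* ℂ)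
    (hfin : ∀ c : Fin 3 → ℝ, {z : ℂ | Reg F σ z ∧ ∀ l, ‖cu F σ z l‖ = c l}.Finite)
    (W : MvPolynomial (Fin 3) ℂ)
    (hW : ∀ z : ℂ, Reg F σ z →
      MvPolynomial.eval (fun l => ((‖cu F σ z l‖ ^ 2 : ℝ) : ℂ)) W = 0)
    (htor : ∀ n : Fin 3 → ℤ, n ≠ 0 →
      ∃ τ : ℂ, τ ≠ 0 ∧ MvPolynomial.eval (fun l => τ ^ n l) W ≠ 0) : StarP F σ := by
  intro d hd S R
  obtain ⟨l0, hl0⟩ : ∃ l, d l ≠ 0 := by
    by_contra h
    push Not at h
    exact hd (funext h)
  set f : ℂ → ℂ := fun t => MvPolynomial.eval (fun l => Complex.exp (2 * t * d l)) W with hf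
  have hdiff : Differentiable ℂ f := by
    have h1 : f = fun t => ∑ m ∈ W.support, W.coeff m * Complex.exp (2 * t * pr d m) :=
      funext fun t => eval_exp W d t
    rw [h1]
    fun_prop
  have hne : ¬ ∀ t : ℝ, f t = 0 := by
    intro h
    obtain ⟨n, hn, hn2⟩ := exists_torus W d hd h
    obtain ⟨τ, hτ, hτ2⟩ := htor n hn
    exact hτ2 (hn2 τ hτ)
  set A : ℝ := S / |d l0| with hA
  -- finitely many parameters
  have hroots : {t : ℂ | t ∈ Metric.closedBall (0 : ℂ) A ∧ f t = 0}.Finite := by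
    by_contra hinf
    obtain ⟨x, -, hx⟩ := Set.Infinite.exists_accPt_of_subset_isCompact hinf
      (isCompact_closedBall (0 : ℂ) A) (fun t ht => ht.1)
    have han : AnalyticOnNhd ℂ f Set.univ := hdiff.differentiableOn.analyticOnNhd isOpen_univ
    have hfr : ∃ᶠ z in nhdsWithin x {x}ᶜ, f z = 0 := by
      rw [accPt_iff_frequently_nhdsNE] at hx
      exact hx.mono fun z hz => hz.2
    have := han.eqOn_zero_of_preconnected_of_frequently_eq_zero isPreconnected_univ
      (Set.mem_univ x) hfr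
    exact hne fun t => this (Set.mem_univ _)
  have hsub : {z : ℂ | ‖z‖ ≤ R ∧ Reg F σ z ∧ (∀ l, |Lr F σ z l| ≤ S) ∧
      ∃ s : ℝ, Lr F σ z = s • d} ⊆
      ⋃ t ∈ {t : ℂ | t ∈ Metric.closedBall (0 : ℂ) A ∧ f t = 0},
        {z : ℂ | Reg F σ z ∧ ∀ l, ‖cu F σ z l‖ = Real.exp (t.re * d l)} := by
    rintro z ⟨-, hreg, hS, s, hs⟩
    have hpos : ∀ l, 0 < ‖cu F σ z l‖ := fun l =>
      norm_pos_iff.2 (div_ne_zero (hreg l).1 (hreg l).2)
    have hval : ∀ l, ‖cu F σ z l‖ = Real.exp (s * d l) := by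
      intro l
      have h1 : Lr F σ z l = s * d l := by rw [hs]; rfl
      rw [← h1, Lr, Real.exp_log (hpos l)]
    refine Set.mem_biUnion (x := (s : ℂ)) ⟨?_, ?_⟩ ⟨hreg, fun l => by simpa using hval l⟩
    · rw [mem_closedBall_zero_iff, Complex.norm_real, Real.norm_eq_abs, hA,
        le_div_iff₀ (abs_pos.2 hl0), ← abs_mul]
      have h1 : Lr F σ z l0 = s * d l0 := by rw [hs]; rfl
      rw [← h1]; exact hS l0
    · rw [hf]
      simp only
      rw [← hW z hreg]
      congr 1
      congr 1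
      funext l
      rw [hval l, ← Real.exp_nat_mul, Complex.ofReal_exp]
      congr 1
      push_cast
      ring
  exact (hroots.biUnion fun t _ => hfin _).subset hsub

end Pool.Agent.Work.MP_7da6af_nt.Gen
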