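import Pool.Agent.Work.MP_7da6af_nt.Gen.Poly

/-! # Bounded height on the curve: one relation -/

set_option autoImplicit false

namespace Pool.Agent.Work.MP_7da6af_nt.Gen

open NumberField Polynomial

section fac

variable {k : Type} [Field k]

/-- multiplicity of a monic irreducible factor -/
noncomputable def c2mult (P π : k[X]) : ℕ := by
  classical exact (UniqueFactorizationMonoid.normalizedFactors P).count π

/-- the monic irreducible factors -/
noncomputable def c2facs (P : k[X]) : Finset k[X] := by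
  classical exact (UniqueFactorizationMonoid.normalizedFactors P).toFinset

theorem c2_fac (P : k[X]) (Q : Finset k[X]) (hQ : c2facs P ⊆ Q) :
    P = C P.leadingCoeff * ∏ π ∈ Q, π ^ c2mult P π := by
  classical
  have h1 := leadingCoeff_mul_prod_normalizedFactors P
  have h2 := Finset.prod_multiset_count_of_subset
    (UniqueFactorizationMonoid.normalizedFactors P) Q (by
      convert hQ
      unfold c2facs
      congr!)
  rw [h2] at h1
  unfold c2mult
  convert h1.symm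

theorem c2_facs {P π : k[X]} (h : π ∈ c2facs P) : Irreducible π ∧ π.Monic ∧ π ∣ P := by
  classical
  unfold c2facs at h
  rw [Multiset.mem_toFinset] at h
  have h0 : P ≠ 0 := by
    rintro rfl
    rw [UniqueFactorizationMonoid.normalizedFactors_zero] at h
    exact Multiset.notMem_zero _ h
  exact (Polynomial.mem_normalizedFactors_iff h0).mp h

theorem c2_cop {π ρ : k[X]} (hπ : Irreducible π) (hπm : π.Monic) (hρ : Irreducible ρ)
    (hρm : ρ.Monic) (hne : π ≠ ρ) : IsCoprime π ρ := by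
  rw [hπ.coprime_iff_not_dvd]
  intro h
  exact hne (eq_of_monic_of_associated hπm hρm (hπ.associated_of_dvd hρ h))

/-- all the factors -/
noncomputable def c2all (F : Fin 3 → RatFunc k) : Finset k[X] := by
  classical exact Finset.univ.biUnion fun j : Fin 3 => c2facs (F j).num ∪ c2facs (F j).denom

theorem c2_num_sub (F : Fin 3 → RatFunc k) (j : Fin 3) : c2facs (F j).num ⊆ c2all F := by
  classical
  intro π hπ
  unfold c2all
  exact Finset.mem_biUnion.mpr ⟨j, Finset.mem_univ _, Finset.mem_union_left _ hπ⟩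

theorem c2_denom_sub (F : Fin 3 → RatFunc k) (j : Fin 3) : c2facs (F j).denom ⊆ c2all F := by
  classical
  intro π hπ
  unfold c2all
  exact Finset.mem_biUnion.mpr ⟨j, Finset.mem_univ _, Finset.mem_union_right _ hπ⟩

theorem c2_all_irr {F : Fin 3 → RatFunc k} {π : k[X]} (h : π ∈ c2all F) :
    Irreducible π ∧ π.Monic ∧ ∃ j, π ∣ (F j).num ∨ π ∣ (F j).denom := by
  classical
  unfold c2all at h
  obtain ⟨j, -, hj⟩ := Finset.mem_biUnion.mp h
  rcases Finset.mem_union.mp hj with h1 | h1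
  · exact ⟨(c2_facs h1).1, (c2_facs h1).2.1, j, Or.inl (c2_facs h1).2.2⟩
  · exact ⟨(c2_facs h1).1, (c2_facs h1).2.1, j, Or.inr (c2_facs h1).2.2⟩

/-- exponent of `π` in `F j` -/
noncomputable def c2e (F : Fin 3 → RatFunc k) (π : k[X]) (j : Fin 3) : ℤ :=
  (c2mult (F j).num π : ℤ) - (c2mult (F j).denom π : ℤ)

theorem c2_ratfunc (F : Fin 3 → RatFunc k) (j : Fin 3) :
    F j = RatFunc.C ((F j).num.leadingCoeff / (F j).denom.leadingCoeff) *
      ∏ π ∈ c2all F, (algebraMap k[X] (RatFunc k) π) ^ c2e F π j := by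
  have h1 := congrArg (algebraMap k[X] (RatFunc k)) (c2_fac (F j).num _ (c2_num_sub F j))
  have h2 := congrArg (algebraMap k[X] (RatFunc k)) (c2_fac (F j).denom _ (c2_denom_sub F j))
  rw [map_mul, map_prod] at h1 h2
  simp only [map_pow] at h1 h2
  conv_lhs => rw [← RatFunc.num_div_denom (F j)]
  rw [h1, h2, RatFunc.algebraMap_C, RatFunc.algebraMap_C, map_div₀, mul_div_mul_comm,
    ← Finset.prod_div_distrib]
  congr 1
  refine Finset.prod_congr rfl fun π hπ => ?_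
  have h0 : algebraMap k[X] (RatFunc k) π ≠ 0 :=
    RatFunc.algebraMap_ne_zero (c2_all_irr hπ).1.ne_zero
  unfold c2e
  rw [zpow_sub₀ h0, zpow_natCast, zpow_natCast]

theorem c2_lin (F : Fin 3 → RatFunc k)
    (hind : ∀ n : Fin 3 → ℤ, n ≠ 0 → ∀ c : k, ∏ j, F j ^ n j ≠ RatFunc.C c) :
    LinearIndependent ℚ (fun j : Fin 3 => fun π : {π : k[X] // π ∈ c2all F} =>
      (c2e F π.1 j : ℚ)) := by
  rw [← LinearIndependent.iff_fractionRing ℤ ℚ, Fintype.linearIndependent_iff]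
  intro n hn
  by_contra hcon
  have hn0 : n ≠ 0 := by
    rintro rfl
    exact hcon fun _ => rfl
  refine hind n hn0 (∏ j, ((F j).num.leadingCoeff / (F j).denom.leadingCoeff) ^ n j) ?_
  have hπ : ∀ π ∈ c2all F, c2e F π 0 * n 0 + c2e F π 1 * n 1 + c2e F π 2 * n 2 = 0 := by
    intro π hπ
    have h1 := congrFun hn ⟨π, hπ⟩
    rw [Finset.sum_apply, Fin.sum_univ_three] at h1
    have h1' : n 0 • (c2e F π 0 : ℚ) + n 1 • (c2e F π 1 : ℚ) + n 2 • (c2e F π 2 : ℚ) = 0 := h1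
    rw [zsmul_eq_mul, zsmul_eq_mul, zsmul_eq_mul] at h1'
    have h2 : ((c2e F π 0 * n 0 + c2e F π 1 * n 1 + c2e F π 2 * n 2 : ℤ) : ℚ) = 0 := by
      push_cast
      linarith
    exact_mod_cast h2
  have h3 : ∀ j, F j ^ n j =
      RatFunc.C (((F j).num.leadingCoeff / (F j).denom.leadingCoeff) ^ n j) *
      ∏ π ∈ c2all F, (algebraMap k[X] (RatFunc k) π) ^ (c2e F π j * n j) := by
    intro j
    conv_lhs => rw [c2_ratfunc F j]
    rw [mul_zpow, map_zpow₀, ← Finset.prod_zpow]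
    congr 1
    exact Finset.prod_congr rfl fun π _ => (zpow_mul _ _ _).symm
  rw [Fin.prod_univ_three, h3 0, h3 1, h3 2, Fin.prod_univ_three, map_mul, map_mul]
  have h4 : (∏ π ∈ c2all F, (algebraMap k[X] (RatFunc k) π) ^ (c2e F π 0 * n 0)) *
      (∏ π ∈ c2all F, (algebraMap k[X] (RatFunc k) π) ^ (c2e F π 1 * n 1)) *
      (∏ π ∈ c2all F, (algebraMap k[X] (RatFunc k) π) ^ (c2e F π 2 * n 2)) = 1 := by
    rw [← Finset.prod_mul_distrib, ← Finset.prod_mul_distrib]
    refine Finset.prod_eq_one fun π hπ' => ?_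
    have h0 : algebraMap k[X] (RatFunc k) π ≠ 0 :=
      RatFunc.algebraMap_ne_zero (c2_all_irr hπ').1.ne_zero
    rw [← zpow_add₀ h0, ← zpow_add₀ h0, hπ π hπ', zpow_zero]
  calc _ = RatFunc.C (((F 0).num.leadingCoeff / (F 0).denom.leadingCoeff) ^ n 0) *
        RatFunc.C (((F 1).num.leadingCoeff / (F 1).denom.leadingCoeff) ^ n 1) *
        RatFunc.C (((F 2).num.leadingCoeff / (F 2).denom.leadingCoeff) ^ n 2) *
        ((∏ π ∈ c2all F, (algebraMap k[X] (RatFunc k) π) ^ (c2e F π 0 * n 0)) *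
      (∏ π ∈ c2all F, (algebraMap k[X] (RatFunc k) π) ^ (c2e F π 1 * n 1)) *
      (∏ π ∈ c2all F, (algebraMap k[X] (RatFunc k) π) ^ (c2e F π 2 * n 2))) := by ring
    _ = _ := by rw [h4, mul_one]

/-- one of the coefficients `∑ κ_j e_π(j)` dominates all the others and `κ` -/
theorem c2_dual (F : Fin 3 → RatFunc k)
    (hind : ∀ n : Fin 3 → ℤ, n ≠ 0 → ∀ c : k, ∏ j, F j ^ n j ≠ RatFunc.C c) :
    ∃ A : ℝ, 0 ≤ A ∧ ∀ κ : Fin 3 → ℝ, κ ≠ 0 → ∃ π ∈ c2all F,
      (∑ j, κ j * (c2e F π j : ℝ)) ≠ 0 ∧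
      (∀ ρ ∈ c2all F, |∑ j, κ j * (c2e F ρ j : ℝ)| ≤ |∑ j, κ j * (c2e F π j : ℝ)|) ∧
      ∀ j, |κ j| ≤ A * |∑ j, κ j * (c2e F π j : ℝ)| := by
  classical
  have hl := c2_lin F hind
  rw [linearIndependent_iff_injective_fintypeLinearCombination] at hl
  obtain ⟨g, hg⟩ := LinearMap.exists_leftInverse_of_injective _ (LinearMap.ker_eq_bot.mpr hl)
  set b : Fin 3 → {π : k[X] // π ∈ c2all F} → ℚ := fun j => fun π => (c2e F π.1 j : ℚ) with hb
  have h1 : ∀ j i : Fin 3, ∑ π : {π : k[X] // π ∈ c2all F}, (c2e F π.1 j : ℚ) *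
      g (fun ρ => if π = ρ then 1 else 0) i = if j = i then 1 else 0 := by
    intro j i
    have h2 : g (b j) = Pi.single j 1 := by
      have h3 : Fintype.linearCombination ℚ b (Pi.single j 1) = b j := by
        rw [Fintype.linearCombination_apply_single, one_smul]
      rw [← h3]
      exact LinearMap.congr_fun hg _
    have h4 := LinearMap.pi_apply_eq_sum_univ g (b j)
    rw [h2] at h4
    have h5 := congrFun h4 i
    rw [Finset.sum_apply] at h5
    simp only [Pi.smul_apply, smul_eq_mul] at h5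
    rw [← h5, Pi.single_apply]
    simp only [eq_comm]
  set w : Fin 3 → {π : k[X] // π ∈ c2all F} → ℝ :=
    fun i π => ((g (fun ρ => if π = ρ then 1 else 0) i : ℚ) : ℝ) with hw
  have h2 : ∀ κ : Fin 3 → ℝ, ∀ i, κ i = ∑ π : {π : k[X] // π ∈ c2all F},
      w i π * ∑ j, κ j * (c2e F π.1 j : ℝ) := by
    intro κ i
    have h3 : ∀ j : Fin 3, ∑ π : {π : k[X] // π ∈ c2all F}, (c2e F π.1 j : ℝ) * w i π =
        if j = i then 1 else 0 := by
      intro j
      have h4 : ((∑ π : {π : k[X] // π ∈ c2all F}, (c2e F π.1 j : ℚ) *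
          g (fun ρ => if π = ρ then 1 else 0) i : ℚ) : ℝ) = ((if j = i then 1 else 0 : ℚ) : ℝ) := by
        rw [h1 j i]
      rw [Rat.cast_sum] at h4
      simp only [Rat.cast_mul, Rat.cast_intCast] at h4
      rw [h4]
      split_ifs <;> simp
    simp only [Finset.mul_sum]
    rw [Finset.sum_comm]
    have h5 : ∀ j : Fin 3, ∑ π : {π : k[X] // π ∈ c2all F}, w i π * (κ j * (c2e F π.1 j : ℝ)) =
        κ j * if j = i then 1 else 0 := by
      intro j
      rw [← h3 j, Finset.mul_sum]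
      exact Finset.sum_congr rfl fun π _ => by ring
    rw [Finset.sum_congr rfl fun j _ => h5 j]
    simp
  refine ⟨∑ i, ∑ π : {π : k[X] // π ∈ c2all F}, |w i π|, Finset.sum_nonneg fun i _ => Finset.sum_nonneg fun π _ => abs_nonneg _,
    fun κ hκ => ?_⟩
  have hne : (c2all F).Nonempty := by
    by_contra hcon
    rw [Finset.not_nonempty_iff_eq_empty] at hcon
    apply hκ
    funext i
    rw [h2 κ i, Finset.sum_eq_zero]
    · rfl
    · rintro ⟨π, hπ⟩ _
      rw [hcon] at hπ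
      exact absurd hπ (Finset.notMem_empty _)
  obtain ⟨π, hπ, hmax⟩ := Finset.exists_max_image (c2all F)
    (fun ρ => |∑ j, κ j * (c2e F ρ j : ℝ)|) hne
  have h3 : ∀ i, |κ i| ≤ (∑ i, ∑ π : {π : k[X] // π ∈ c2all F}, |w i π|) * |∑ j, κ j * (c2e F π j : ℝ)| := by
    intro i
    have h4 : |κ i| ≤ ∑ ρ : {π : k[X] // π ∈ c2all F}, |w i ρ| * |∑ j, κ j * (c2e F π j : ℝ)| := by
      conv_lhs => rw [h2 κ i]
      refine (Finset.abs_sum_le_sum_abs _ _).trans (Finset.sum_le_sum fun ρ _ => ?_)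
      rw [abs_mul]
      exact mul_le_mul_of_nonneg_left (hmax ρ ρ.2) (abs_nonneg _)
    rw [← Finset.sum_mul] at h4
    refine h4.trans (mul_le_mul_of_nonneg_right ?_ (abs_nonneg _))
    exact Finset.single_le_sum (f := fun i => ∑ π, |w i π|)
      (fun i _ => Finset.sum_nonneg fun π _ => abs_nonneg _) (Finset.mem_univ i)
  refine ⟨π, hπ, ?_, hmax, h3⟩
  intro h0
  apply hκ
  funext i
  have h4 := h3 i
  rw [h0, abs_zero, mul_zero] at h4
  exact abs_nonpos_iff.mp h4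

end fac

section heights

variable {k : Type} [Field k] [NumberField k]

theorem c2_hh_zero {K : Type} [Field K] [NumberField K] : hh (0 : K) = 0 := by
  unfold hh lg plSum
  simp

/-- height of `y` from the height of the value of a nonconstant polynomial -/
theorem c2_hh_low (g : k[X]) (hg : 0 < g.natDegree) : ∃ C : ℝ, 0 ≤ C ∧
    ∀ (K : Type) [Field K] [NumberField K] (φ : k →+* K) (y : K), ev φ y g ≠ 0 →
      hh y ≤ C * dg K + hh (ev φ y g) := by
  obtain ⟨C, S, hC, h⟩ := poly_low g hg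
  obtain ⟨B, hB, hS⟩ := plSum_cst S
  refine ⟨C * B, mul_nonneg hC hB, fun K _ _ φ y hy => ?_⟩
  rcases eq_or_ne y 0 with h0 | h0
  · rw [h0, c2_hh_zero]
    have h1 : 0 ≤ C * B * dg K := mul_nonneg (mul_nonneg hC hB) dg_pos.le
    have h2 := hh_nonneg (ev φ (0 : K) g)
    linarith
  · have h1 : hh y ≤ plSum K (fun p => C * cst S φ p + max 0 (lg p (ev φ y g))) :=
      plSum_mono (fs_max h0) (((fs_cst S φ).smul C).add (fs_max hy)) fun p => h K φ y p hy
    rw [plSum_add ((fs_cst S φ).smul C) (fs_max hy), plSum_smul] at h1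
    have h2 := mul_le_mul_of_nonneg_left (hS K φ) hC
    have h3 : plSum K (fun p => max 0 (lg p (ev φ y g))) = hh (ev φ y g) := rfl
    rw [h3] at h1
    linarith

/-- a factor whose logarithm is dominated by the logarithms of factors coprime to it -/
theorem c2_near (π : k[X]) (hπ : 0 < π.natDegree) (Q : Finset k[X])
    (hQ : ∀ ρ ∈ Q, IsCoprime π ρ) (A : ℝ) (hA : 0 ≤ A) (T : Finset k) :
    ∃ B : ℝ, 0 ≤ B ∧ ∀ (K : Type) [Field K] [NumberField K] (φ : k →+* K) (y : K),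
      ev φ y π ≠ 0 → (∀ ρ ∈ Q, ev φ y ρ ≠ 0) →
      (∀ p : Pl K, |lg p (ev φ y π)| ≤ A * ∑ q ∈ T, |lg p (φ q)| +
        ∑ ρ ∈ Q, |lg p (ev φ y ρ)|) → hh y ≤ B * dg K := by
  classical
  have h1 : ∀ ρ : k[X], ∃ (C : ℝ) (S : Finset k), 0 ≤ C ∧ (ρ ∈ Q →
      ∀ (K : Type) [Field K] [NumberField K] (φ : k →+* K) (y : K) (p : Pl K),
        ev φ y π ≠ 0 → ev φ y ρ ≠ 0 →
        - lg p (ev φ y π) ≤ C * cst S φ p ∨ |lg p (ev φ y ρ)| ≤ C * cst S φ p) := by
    intro ρ
    by_cases hρ : ρ ∈ Q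
    · obtain ⟨C, S, hC, h⟩ := poly_cop π ρ (hQ ρ hρ) hπ
      exact ⟨C, S, hC, fun _ => h⟩
    · exact ⟨0, ∅, le_rfl, fun h => absurd h hρ⟩
  choose C S hC hCS using h1
  set S' : Finset k := T ∪ Q.biUnion S with hS'
  set C' : ℝ := A + ∑ ρ ∈ Q, C ρ with hC'
  have hC'0 : 0 ≤ C' := add_nonneg hA (Finset.sum_nonneg fun ρ _ => hC ρ)
  obtain ⟨B, hB, hS⟩ := plSum_cst S'
  obtain ⟨C3, hC3, h3⟩ := c2_hh_low π hπ
  refine ⟨C3 + C' * B, by positivity, fun K _ _ φ y hy hyQ hp => ?_⟩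
  have hsub : ∀ ρ ∈ Q, S ρ ⊆ S' := fun ρ hρ => by
    rw [hS']
    exact (Finset.subset_biUnion_of_mem S hρ).trans Finset.subset_union_right
  have hT : ∀ p : Pl K, ∑ q ∈ T, |lg p (φ q)| ≤ cst S' φ p := by
    intro p
    unfold cst
    have e1 : ∑ q ∈ T, |lg p (φ q)| ≤ ∑ q ∈ S', |lg p (φ q)| :=
      Finset.sum_le_sum_of_subset_of_nonneg (by rw [hS']; exact Finset.subset_union_left)
        fun _ _ _ => abs_nonneg _
    have e2 := ar_nonneg p
    linarith
  have h4 : ∀ p : Pl K, max 0 (- lg p (ev φ y π)) ≤ C' * cst S' φ p := by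
    intro p
    have e0 := cst_nonneg S' φ p
    refine max_le (mul_nonneg hC'0 e0) ?_
    have e4 : A * ∑ q ∈ T, |lg p (φ q)| ≤ A * cst S' φ p := mul_le_mul_of_nonneg_left (hT p) hA
    have e5 : 0 ≤ A * cst S' φ p := mul_nonneg hA e0
    rw [hC', add_mul, Finset.sum_mul]
    by_cases hall : ∀ ρ ∈ Q, |lg p (ev φ y ρ)| ≤ C ρ * cst S' φ p
    · have e1 := neg_abs_le (lg p (ev φ y π))
      have e2 := hp p
      have e3 : ∑ ρ ∈ Q, |lg p (ev φ y ρ)| ≤ ∑ ρ ∈ Q, C ρ * cst S' φ p :=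
        Finset.sum_le_sum hall
      linarith
    · push Not at hall
      obtain ⟨ρ, hρ, hlt⟩ := hall
      have e6 : C ρ * cst (S ρ) φ p ≤ C ρ * cst S' φ p :=
        mul_le_mul_of_nonneg_left (cst_mono (hsub ρ hρ) φ p) (hC ρ)
      have e7 : C ρ * cst S' φ p ≤ ∑ ρ ∈ Q, C ρ * cst S' φ p :=
        Finset.single_le_sum (f := fun ρ => C ρ * cst S' φ p)
          (fun ρ _ => mul_nonneg (hC ρ) e0) hρ
      rcases hCS ρ hρ K φ y p hy (hyQ ρ hρ) with h5 | h5
      · linarith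
      · linarith
  have h5 : hh (ev φ y π) ≤ plSum K (fun p => C' * cst S' φ p) := by
    rw [← plSum_neg hy]
    exact plSum_mono ((fs_lg hy).of_imp fun p hp => by rw [hp, neg_zero, max_self])
      ((fs_cst S' φ).smul C') h4
  rw [plSum_smul] at h5
  have h6 := h3 K φ y hy
  have h7 := mul_le_mul_of_nonneg_left (hS K φ) hC'0
  linarith

/-- the logarithm of a value, by the factorization -/
theorem c2_lg (P : k[X]) (Q : Finset k[X]) (hQ : c2facs P ⊆ Q) {K : Type} [Field K]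
    [NumberField K] (φ : k →+* K) (y : K) (p : Pl K) (hP : ev φ y P ≠ 0)
    (hyQ : ∀ π ∈ Q, ev φ y π ≠ 0) :
    lg p (ev φ y P) = lg p (φ P.leadingCoeff) +
      ∑ π ∈ Q, (c2mult P π : ℝ) * lg p (ev φ y π) := by
  have hP0 : P ≠ 0 := by
    rintro rfl
    exact hP (ev_zero φ y)
  have h1 : ev φ y P = φ P.leadingCoeff * ∏ π ∈ Q, ev φ y π ^ c2mult P π := by
    conv_lhs => rw [c2_fac P Q hQ]
    unfold ev
    rw [eval₂_mul, eval₂_C, eval₂_finsetProd]
    simp only [eval₂_pow]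
  have h2 : φ P.leadingCoeff ≠ 0 := (map_ne_zero φ).2 (leadingCoeff_ne_zero.mpr hP0)
  have h3 : ∏ π ∈ Q, ev φ y π ^ c2mult P π ≠ 0 :=
    Finset.prod_ne_zero_iff.mpr fun π hπ => pow_ne_zero _ (hyQ π hπ)
  rw [h1, lg_mul p h2 h3]
  congr 1
  unfold lg
  rw [map_prod, Real.log_prod fun π hπ => (av p).ne_zero (pow_ne_zero _ (hyQ π hπ))]
  refine Finset.sum_congr rfl fun π _ => ?_
  rw [map_pow, Real.log_pow]

/-- regular points: the factors do not vanish -/
theorem c2_reg {F : Fin 3 → RatFunc k} {K : Type} [Field K] [NumberField K] {φ : k →+* K} {y : K}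
    (hreg : Reg F φ y) {π : k[X]} (hπ : π ∈ c2all F) : ev φ y π ≠ 0 := by
  obtain ⟨-, -, j, hj | hj⟩ := c2_all_irr hπ
  · obtain ⟨Q, hQ⟩ := hj
    intro h
    apply (hreg j).1
    rw [hQ, ev_mul, h, zero_mul]
  · obtain ⟨Q, hQ⟩ := hj
    intro h
    apply (hreg j).2
    rw [hQ, ev_mul, h, zero_mul]

/-- the logarithms of the coordinates -/
theorem c2_lg_cu (F : Fin 3 → RatFunc k) {K : Type} [Field K] [NumberField K] (φ : k →+* K)
    (y : K) (hreg : Reg F φ y) (p : Pl K) (j : Fin 3) :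
    lg p (cu F φ y j) = (lg p (φ (F j).num.leadingCoeff) - lg p (φ (F j).denom.leadingCoeff)) +
      ∑ π ∈ c2all F, (c2e F π j : ℝ) * lg p (ev φ y π) := by
  have hy : ∀ π ∈ c2all F, ev φ y π ≠ 0 := fun π hπ => c2_reg hreg hπ
  have h1 := c2_lg (F j).num _ (c2_num_sub F j) φ y p (hreg j).1 hy
  have h2 := c2_lg (F j).denom _ (c2_denom_sub F j) φ y p (hreg j).2 hy
  have h3 : lg p (cu F φ y j) = lg p (ev φ y (F j).num) - lg p (ev φ y (F j).denom) := by
    show lg p (ev φ y (F j).num / ev φ y (F j).denom) = _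
    rw [div_eq_mul_inv, lg_mul p (hreg j).1 (inv_ne_zero (hreg j).2), lg_inv]
    ring
  have h4 : ∑ π ∈ c2all F, (c2e F π j : ℝ) * lg p (ev φ y π) =
      ∑ π ∈ c2all F, (c2mult (F j).num π : ℝ) * lg p (ev φ y π) -
        ∑ π ∈ c2all F, (c2mult (F j).denom π : ℝ) * lg p (ev φ y π) := by
    rw [← Finset.sum_sub_distrib]
    refine Finset.sum_congr rfl fun π _ => ?_
    unfold c2e
    push_cast
    ring
  rw [h3, h1, h2, h4]
  ring

/-- the curve is not contained in a coset of a proper subtorus -/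
theorem c2_of_indep (F : Fin 3 → RatFunc k)
    (hind : ∀ n : Fin 3 → ℤ, n ≠ 0 → ∀ c : k, ∏ j, F j ^ n j ≠ RatFunc.C c) : C2 F := by
  classical
  obtain ⟨A, hA, hdual⟩ := c2_dual F hind
  -- the constants
  set T : Finset k := Finset.univ.image (fun j : Fin 3 => (F j).num.leadingCoeff) ∪
    Finset.univ.image (fun j : Fin 3 => (F j).denom.leadingCoeff) with hT
  have h1 : ∀ π : k[X], ∃ B : ℝ, 0 ≤ B ∧ (π ∈ c2all F →
      ∀ (K : Type) [Field K] [NumberField K] (φ : k →+* K) (y : K),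
      ev φ y π ≠ 0 → (∀ ρ ∈ (c2all F).erase π, ev φ y ρ ≠ 0) →
      (∀ p : Pl K, |lg p (ev φ y π)| ≤ (6 * A) * ∑ q ∈ T, |lg p (φ q)| +
        ∑ ρ ∈ (c2all F).erase π, |lg p (ev φ y ρ)|) → hh y ≤ B * dg K) := by
    intro π
    by_cases hπ : π ∈ c2all F
    · obtain ⟨hirr, hmon, -⟩ := c2_all_irr hπ
      obtain ⟨B, hB, h⟩ := c2_near π hirr.natDegree_pos ((c2all F).erase π) (fun ρ hρ => by
        obtain ⟨hne, hρ'⟩ := Finset.mem_erase.mp hρ
        obtain ⟨hirr', hmon', -⟩ := c2_all_irr hρ'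
        exact c2_cop hirr hmon hirr' hmon' (Ne.symm hne)) (6 * A) (by positivity) T
      exact ⟨B, hB, fun _ => h⟩
    · exact ⟨0, le_rfl, fun h => absurd h hπ⟩
  choose B hB hBπ using h1
  refine ⟨∑ π ∈ c2all F, B π, Finset.sum_nonneg fun π _ => hB π,
    fun K _ _ φ y hreg κ hκ hrel => ?_⟩
  obtain ⟨π, hπ, ha0, hmax, hκA⟩ := hdual κ hκ
  have hd : 0 < dg K := dg_pos
  have hy : ∀ ρ ∈ c2all F, ev φ y ρ ≠ 0 := fun ρ hρ => c2_reg hreg hρ
  have hle : B π * dg K ≤ (∑ π ∈ c2all F, B π) * dg K :=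
    mul_le_mul_of_nonneg_right (Finset.single_le_sum (f := B) (fun ρ _ => hB ρ) hπ) hd.le
  refine le_trans (hBπ π hπ K φ y (hy π hπ) (fun ρ hρ => hy ρ (Finset.mem_of_mem_erase hρ))
    fun p => ?_) hle
  set a : k[X] → ℝ := fun ρ => ∑ j, κ j * (c2e F ρ j : ℝ) with ha
  set M : ℝ := ∑ q ∈ T, |lg p (φ q)| with hM
  have hMn : ∀ j : Fin 3, |lg p (φ (F j).num.leadingCoeff)| ≤ M := fun j =>
    Finset.single_le_sum (f := fun q => |lg p (φ q)|) (fun _ _ => abs_nonneg _)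
      (Finset.mem_union_left _ (Finset.mem_image_of_mem _ (Finset.mem_univ j)))
  have hMd : ∀ j : Fin 3, |lg p (φ (F j).denom.leadingCoeff)| ≤ M := fun j =>
    Finset.single_le_sum (f := fun q => |lg p (φ q)|) (fun _ _ => abs_nonneg _)
      (Finset.mem_union_right _ (Finset.mem_image_of_mem _ (Finset.mem_univ j)))
  -- the relation
  have h2 : (∑ j, κ j * (lg p (φ (F j).num.leadingCoeff) - lg p (φ (F j).denom.leadingCoeff))) +
      ∑ ρ ∈ c2all F, a ρ * lg p (ev φ y ρ) = 0 := by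
    rw [← hrel p]
    simp only [c2_lg_cu F φ y hreg p, mul_add, Finset.sum_add_distrib]
    congr 1
    simp only [ha, Finset.sum_mul, Finset.mul_sum]
    rw [Finset.sum_comm]
    exact Finset.sum_congr rfl fun j _ => Finset.sum_congr rfl fun ρ _ => by ring
  rw [← Finset.add_sum_erase _ _ hπ] at h2
  have h3 : |a π| * |lg p (ev φ y π)| ≤
      |∑ j, κ j * (lg p (φ (F j).num.leadingCoeff) - lg p (φ (F j).denom.leadingCoeff))| +
        |∑ ρ ∈ (c2all F).erase π, a ρ * lg p (ev φ y ρ)| := by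
    have e1 : a π * lg p (ev φ y π) =
        -((∑ j, κ j * (lg p (φ (F j).num.leadingCoeff) - lg p (φ (F j).denom.leadingCoeff))) +
          ∑ ρ ∈ (c2all F).erase π, a ρ * lg p (ev φ y ρ)) := by linarith
    rw [← abs_mul, e1, abs_neg]
    exact abs_add_le _ _
  have h4 : |∑ j, κ j * (lg p (φ (F j).num.leadingCoeff) - lg p (φ (F j).denom.leadingCoeff))| ≤
      |a π| * (6 * A * M) := by
    refine (Finset.abs_sum_le_sum_abs _ _).trans ?_
    have e1 : ∀ j ∈ (Finset.univ : Finset (Fin 3)),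
        |κ j * (lg p (φ (F j).num.leadingCoeff) - lg p (φ (F j).denom.leadingCoeff))| ≤
          |a π| * (2 * A * M) := by
      intro j _
      rw [abs_mul]
      have e2 : |lg p (φ (F j).num.leadingCoeff) - lg p (φ (F j).denom.leadingCoeff)| ≤ 2 * M := by
        have e3 := abs_sub (lg p (φ (F j).num.leadingCoeff)) (lg p (φ (F j).denom.leadingCoeff))
        linarith [hMn j, hMd j]
      calc _ ≤ (A * |a π|) * (2 * M) :=
            mul_le_mul (hκA j) e2 (abs_nonneg _) (mul_nonneg hA (abs_nonneg _))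
        _ = |a π| * (2 * A * M) := by ring
    refine (Finset.sum_le_sum e1).trans (le_of_eq ?_)
    rw [Finset.sum_const, Finset.card_univ, Fintype.card_fin, nsmul_eq_mul]
    push_cast
    ring
  have h5 : |∑ ρ ∈ (c2all F).erase π, a ρ * lg p (ev φ y ρ)| ≤
      |a π| * ∑ ρ ∈ (c2all F).erase π, |lg p (ev φ y ρ)| := by
    rw [Finset.mul_sum]
    refine (Finset.abs_sum_le_sum_abs _ _).trans (Finset.sum_le_sum fun ρ hρ => ?_)
    rw [abs_mul]
    exact mul_le_mul_of_nonneg_right (hmax ρ (Finset.mem_of_mem_erase hρ)) (abs_nonneg _)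
  have h6 : |a π| * |lg p (ev φ y π)| ≤
      |a π| * (6 * A * M + ∑ ρ ∈ (c2all F).erase π, |lg p (ev φ y ρ)|) := by
    rw [mul_add]
    linarith
  exact le_of_mul_le_mul_left h6 (abs_pos.mpr ha0)

/-- the coordinates -/
theorem cu_height (F : Fin 3 → RatFunc k) (B : ℝ) : ∃ B' : ℝ, 0 ≤ B' ∧
    ∀ (K : Type) [Field K] [NumberField K] (φ : k →+* K) (y : K), Reg F φ y →
      hh y ≤ B * dg K → ∀ j, hh (cu F φ y j) ≤ B' * dg K := by
  have h1 : ∀ j : Fin 3, ∃ C : ℝ, 0 ≤ C ∧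
      ∀ (K : Type) [Field K] [NumberField K] (φ : k →+* K) (y : K), Reg F φ y →
      hh y ≤ B * dg K → hh (cu F φ y j) ≤ C * dg K := by
    intro j
    obtain ⟨C1, hC1, h1⟩ := hh_poly_bdd (F j).num B
    obtain ⟨C2, hC2, h2⟩ := hh_poly_bdd (F j).denom B
    refine ⟨C1 + C2, by positivity, fun K _ _ φ y hreg hy => ?_⟩
    have h3 := hh_div_le (hreg j).1 (hreg j).2
    have h4 := h1 K φ y hy (hreg j).1
    have h5 := h2 K φ y hy (hreg j).2
    have h6 : hh (cu F φ y j) = hh (ev φ y (F j).num / ev φ y (F j).denom) := rfl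
    rw [h6]
    linarith
  choose C hC h using h1
  refine ⟨∑ j, C j, Finset.sum_nonneg fun j _ => hC j, fun K _ _ φ y hreg hy j => ?_⟩
  refine (h j K φ y hreg hy).trans (mul_le_mul_of_nonneg_right ?_ dg_pos.le)
  exact Finset.single_le_sum (f := C) (fun j _ => hC j) (Finset.mem_univ j)

end heights

end Pool.Agent.Work.MP_7da6af_nt.Gen
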