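import Pool.Agent.Work.MP_7da6af_nt.Gen.Near
import Pool.Agent.Work.MP_7da6af_nt.Gen.Cluster
import Pool.Agent.Work.MP_7da6af_nt.Arch

/-! # Large height: finitely many minimal polynomials -/

set_option autoImplicit false

namespace Pool.Agent.Work.MP_7da6af_nt.Gen

open NumberField Polynomial

variable {k : Type} [Field k] [NumberField k]

/-- the real relation -/
theorem Pt.real_rel {D : Dat k} {K : Type} [Field K] [NumberField K] {φ : k →+* K} {x z y : K}
    (h : Pt D K φ x z y) : ∃ κ : Fin 3 → ℝ, κ ≠ 0 ∧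
      ∀ p : Pl K, ∑ j, κ j * lg p (cu D.F φ y j) = 0 := by
  obtain ⟨κ, hκ, h1⟩ := h.rel
  refine ⟨fun j => (κ j : ℝ), ?_, fun p => ?_⟩
  · intro h0
    apply hκ
    funext j
    have := congrFun h0 j
    simpa using this
  · rw [← lg_mon (cu_ne_zero h.hreg), h1, lg_one]

theorem ev_comp {K : Type} [Field K] (φ : k →+* K) (ψ : K →+* ℂ) (y : K) (P : k[X]) :
    ev (ψ.comp φ) (ψ y) P = ψ (ev φ y P) := by
  unfold ev
  rw [hom_eval₂]

theorem reg_comp {F : Fin 3 → RatFunc k} {K : Type} [Field K] {φ : k →+* K} (ψ : K →+* ℂ) {y : K}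
    (h : Reg F φ y) : Reg F (ψ.comp φ) (ψ y) := by
  intro l
  rw [ev_comp, ev_comp]
  exact ⟨(map_ne_zero ψ).mpr (h l).1, (map_ne_zero ψ).mpr (h l).2⟩

theorem cu_comp (F : Fin 3 → RatFunc k) {K : Type} [Field K] (φ : k →+* K) (ψ : K →+* ℂ) (y : K)
    (l : Fin 3) : cu F (ψ.comp φ) (ψ y) l = ψ (cu F φ y l) := by
  unfold cu
  rw [ev_comp, ev_comp, map_div₀]

theorem degree (D : Dat k) : ∃ (H : ℝ) (S : Finset k[X]), (∀ f ∈ S, Irreducible f) ∧
    ∀ (K : Type) [Field K] [NumberField K] (φ : k →+* K) (x z y : K), Pt D K φ x z y →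
      H * dg K ≤ hh x → ∃ f ∈ S, ev φ y f = 0 := by
  classical
  obtain ⟨B, hB, hc2⟩ := D.c2
  obtain ⟨B', hB', hcu⟩ := cu_height D.F B
  have hB1 : 0 ≤ B + 6 * B' := by positivity
  obtain ⟨ε, QQ, hε, hQQ, hcl⟩ := cluster D.F D.star (B + 6 * B') hB1
  obtain ⟨H, hnear⟩ := near D ε hε
  refine ⟨H, QQ.biUnion fun Q => (UniqueFactorizationMonoid.normalizedFactors
    (Q.map (Int.castRingHom k))).toFinset, ?_, fun K _ _ φ x z y h hH => ?_⟩
  · intro f hf
    obtain ⟨Q, hQ, hf⟩ := Finset.mem_biUnion.mp hf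
    exact UniqueFactorizationMonoid.irreducible_of_normalized_factor f
      (Multiset.mem_toFinset.mp hf)
  -- it suffices to find a `Q` which vanishes at `y`
  have key : ∀ Q ∈ QQ, aeval y Q = 0 → ∃ f ∈ QQ.biUnion fun Q =>
      (UniqueFactorizationMonoid.normalizedFactors (Q.map (Int.castRingHom k))).toFinset,
      ev φ y f = 0 := by
    intro Q hQ hQy
    have hne : Q.map (Int.castRingHom k) ≠ 0 :=
      (Polynomial.map_ne_zero_iff (Int.cast_injective)).mpr (hQQ Q hQ)
    have h1 : ev φ y (Q.map (Int.castRingHom k)) = 0 := by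
      unfold ev
      rw [eval₂_map]
      have : φ.comp (Int.castRingHom k) = algebraMap ℤ K := Subsingleton.elim _ _
      rw [this]
      exact hQy
    have h2 : eval₂RingHom φ y (Q.map (Int.castRingHom k)) = 0 := h1
    rw [← leadingCoeff_mul_prod_normalizedFactors (Q.map (Int.castRingHom k)), map_mul,
      map_multiset_prod, mul_eq_zero, Multiset.prod_eq_zero_iff] at h2
    rcases h2 with h2 | h2
    · exfalso
      rw [coe_eval₂RingHom, eval₂_C, map_eq_zero, leadingCoeff_eq_zero] at h2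
      exact hne h2
    · obtain ⟨f, hf, hf0⟩ := Multiset.mem_map.mp h2
      exact ⟨f, Finset.mem_biUnion.mpr ⟨Q, hQ, Multiset.mem_toFinset.mpr hf⟩, hf0⟩
  obtain ⟨d, bad, hd1, hbad, hgood⟩ := hnear K φ x z y h hH
  have hdg : 0 < dg K := dg_pos
  obtain ⟨κ, hκ, hκr⟩ := h.real_rel
  have hcu0 : ∀ l, cu D.F φ y l ≠ 0 := cu_ne_zero h.hreg
  have hy := hc2 K φ y h.hreg κ hκ hκr
  have hcuy := hcu K φ y h.hreg hy
  have e1 : ∀ (v : InfinitePlace K) (t : K), Real.log ‖v.embedding t‖ = lg (Sum.inl v) t :=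
    fun v t => by
      rw [InfinitePlace.norm_embedding_eq]
      rfl
  have hLr : ∀ v : InfinitePlace K, ∀ l, Lr D.F (v.embedding.comp φ) (v.embedding y) l =
      lg (Sum.inl v) (cu D.F φ y l) := by
    intro v l
    show Real.log ‖cu D.F (v.embedding.comp φ) (v.embedding y) l‖ = _
    rw [cu_comp, e1]
  have hm : ∑ v : InfinitePlace K, (v.mult : ℝ) / dg K = 1 := by
    rw [← Finset.sum_div, div_eq_one_iff_eq hdg.ne']
    unfold dg
    exact_mod_cast InfinitePlace.sum_mult_eq (K := K)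
  obtain ⟨Q, hQ, h1⟩ := hcl d hd1 (InfinitePlace K) (fun v => (v.mult : ℝ) / dg K)
    (fun v => v.embedding y) (fun v => v.embedding.comp φ) (fun v => by positivity) hm
    (fun v => reg_comp v.embedding h.hreg)
    (by
      have hFS : FS fun p : Pl K => max 0 (lg p y) + ∑ l, |lg p (cu D.F φ y l)| :=
        (fs_max' y).add (FS.sum _ fun l _ => fs_abs (hcu0 l))
      have h2 := arch_le hFS fun p => add_nonneg (le_max_left _ _)
        (Finset.sum_nonneg fun l _ => abs_nonneg _)
      rw [plSum_add (fs_max' y) (FS.sum _ fun l _ => fs_abs (hcu0 l)),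
        plSum_sum _ fun l _ => fs_abs (hcu0 l)] at h2
      have h3 : ∑ l, plSum K (fun p => |lg p (cu D.F φ y l)|) ≤ 6 * B' * dg K := by
        calc ∑ l, plSum K (fun p => |lg p (cu D.F φ y l)|)
            ≤ ∑ _l : Fin 3, 2 * (B' * dg K) := by
              refine Finset.sum_le_sum fun l _ => ?_
              rw [plSum_abs (hcu0 l)]
              exact mul_le_mul_of_nonneg_left (hcuy l) zero_le_two
          _ = 6 * B' * dg K := by
              simp
              ring
      have h4 : ∑ v : InfinitePlace K, (v.mult : ℝ) / dg K *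
          (max 0 (Real.log ‖v.embedding y‖) +
            ∑ l, |Lr D.F (v.embedding.comp φ) (v.embedding y) l|) =
          (∑ v : InfinitePlace K, (v.mult : ℝ) * (max 0 (lg (Sum.inl v) y) +
            ∑ l, |lg (Sum.inl v) (cu D.F φ y l)|)) / dg K := by
        rw [Finset.sum_div]
        refine Finset.sum_congr rfl fun v _ => ?_
        rw [e1]
        simp only [hLr]
        ring
      rw [h4, div_le_iff₀ hdg]
      have h5 : plSum K (fun p => max 0 (lg p y)) ≤ B * dg K := hy
      linarith)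
    (by
      refine ⟨bad, ?_, fun v hv => ?_⟩
      · rw [← Finset.sum_div, div_le_iff₀ hdg]
        linarith
      · obtain ⟨j, s, hs, h2⟩ := hgood v hv
        refine ⟨j, s, hs, fun l => ?_⟩
        rw [hLr]
        exact h2 l)
  apply key Q hQ
  by_contra hQy
  rcases h1 with ⟨v, hv⟩ | h1
  · rw [emb_aevalZ] at hv
    exact hQy (v.embedding.injective (by rw [map_zero]; exact hv))
  · have h2 := arch_lower y Q hQy
    have h3 : ∑ v : InfinitePlace K, (v.mult : ℝ) / dg K *
        Real.log ‖aeval (v.embedding y) Q‖ =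
        (∑ v : InfinitePlace K, (v.mult : ℝ) * lg (Sum.inl v) (aeval y Q)) / dg K := by
      rw [Finset.sum_div]
      refine Finset.sum_congr rfl fun v _ => ?_
      rw [emb_aevalZ, e1]
      ring
    rw [h3, div_lt_iff₀ hdg] at h1
    have h4 : (Q.natDegree : ℝ) * hh y ≤ Q.natDegree * (B * dg K) :=
      mul_le_mul_of_nonneg_left hy (Nat.cast_nonneg _)
    have h5 : 0 ≤ (Q.natDegree : ℝ) * (6 * B' * dg K) := by positivity
    nlinarith

end Pool.Agent.Work.MP_7da6af_nt.Gen
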