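import Pool.Agent.Work.MP_7da6af_nt.Gen.Defs

/-! # Level sets of the absolute values of two independent polynomials are finite -/

set_option autoImplicit false

namespace Pool.Agent.Work.MP_7da6af_nt.Gen

open Polynomial Filter Topology

/-- the polynomial with conjugate coefficients -/
noncomputable def cj (p : ℂ[X]) : ℂ[X] := p.map (starRingEnd ℂ)

theorem cj_natDegree (p : ℂ[X]) : (cj p).natDegree = p.natDegree :=
  natDegree_map_eq_of_injective (starRingEnd ℂ).injective p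

theorem cj_eval (p : ℂ[X]) (z : ℂ) :
    (cj p).eval (starRingEnd ℂ z) = starRingEnd ℂ (p.eval z) := by
  unfold cj
  rw [eval_map, eval₂_hom]

theorem eval_mul_cj (p : ℂ[X]) (z : ℂ) :
    p.eval z * (cj p).eval (starRingEnd ℂ z) = ((‖p.eval z‖ ^ 2 : ℝ) : ℂ) := by
  rw [cj_eval, Complex.mul_conj, Complex.normSq_eq_norm_sq]

/-- the bivariate polynomial `p(z) cj p (w) - c`, in the variable `w` over `ℂ[z]` -/
noncomputable def bi (p : ℂ[X]) (c : ℂ) : ℂ[X][X] :=
  Polynomial.C p * (cj p).map (Polynomial.C : ℂ →+* ℂ[X]) - Polynomial.C (Polynomial.C c)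

/-- its specialisation -/
noncomputable def sp (p : ℂ[X]) (c z : ℂ) : ℂ[X] :=
  Polynomial.C (p.eval z) * cj p - Polynomial.C c

theorem bi_map (p : ℂ[X]) (c z : ℂ) : (bi p c).map (evalRingHom z) = sp p c z := by
  unfold bi sp
  rw [Polynomial.map_sub, Polynomial.map_mul, Polynomial.map_C, Polynomial.map_C,
    Polynomial.map_map]
  have h : (evalRingHom z).comp (Polynomial.C : ℂ →+* ℂ[X]) = RingHom.id ℂ := by
    ext a
    simp
  rw [h, Polynomial.map_id]
  simp

theorem sp_natDegree (p : ℂ[X]) (c z : ℂ) (hz : p.eval z ≠ 0) :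
    (sp p c z).natDegree = p.natDegree := by
  unfold sp
  rw [natDegree_sub_C, natDegree_C_mul hz, cj_natDegree]

theorem sp_eval (p : ℂ[X]) (c z w : ℂ) : (sp p c z).eval w = p.eval z * (cj p).eval w - c := by
  unfold sp
  simp

/-- If the common level set is infinite then for all `z` there is `w`. -/
theorem exists_partner (p1 p2 : ℂ[X]) (h1 : 0 < p1.natDegree) (h2 : 0 < p2.natDegree) (c1 c2 : ℝ)
    (hc1 : 0 < c1) (hc2 : 0 < c2)
    (hinf : {z : ℂ | ‖p1.eval z‖ = c1 ∧ ‖p2.eval z‖ = c2}.Infinite) (z : ℂ)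
    (hz1 : p1.eval z ≠ 0) (hz2 : p2.eval z ≠ 0) :
    ∃ w : ℂ, p1.eval z * (cj p1).eval w = ((c1 ^ 2 : ℝ) : ℂ) ∧
      p2.eval z * (cj p2).eval w = ((c2 ^ 2 : ℝ) : ℂ) := by
  set C1 : ℂ := ((c1 ^ 2 : ℝ) : ℂ) with hC1
  set C2 : ℂ := ((c2 ^ 2 : ℝ) : ℂ) with hC2
  set ρ : ℂ[X] := resultant (bi p1 C1) (bi p2 C2) p1.natDegree p2.natDegree with hρ
  have hev : ∀ z, ρ.eval z = resultant (sp p1 C1 z) (sp p2 C2 z) p1.natDegree p2.natDegree := by
    intro z
    rw [← bi_map, ← bi_map, resultant_map_map]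
    rfl
  have hev' : ∀ z, p1.eval z ≠ 0 → p2.eval z ≠ 0 →
      ρ.eval z = resultant (sp p1 C1 z) (sp p2 C2 z) := by
    intro z hz1 hz2
    rw [hev, sp_natDegree p1 C1 z hz1, sp_natDegree p2 C2 z hz2]
  have hne : ∀ z, p1.eval z ≠ 0 → sp p1 C1 z ≠ 0 := by
    intro z hz1 h
    have := sp_natDegree p1 C1 z hz1
    rw [h, natDegree_zero] at this
    omega
  have hρ0 : ρ = 0 := by
    apply eq_zero_of_infinite_isRoot
    refine hinf.mono ?_
    rintro z ⟨e1, e2⟩
    have hz1 : p1.eval z ≠ 0 := by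
      intro h
      rw [h, norm_zero] at e1
      exact hc1.ne e1
    have hz2 : p2.eval z ≠ 0 := by
      intro h
      rw [h, norm_zero] at e2
      exact hc2.ne e2
    show ρ.eval z = 0
    rw [hev' z hz1 hz2, resultant_eq_zero_iff]
    refine ⟨Or.inl (hne z hz1), ?_⟩
    rintro ⟨a, b, hab⟩
    have := congrArg (fun q => q.eval (starRingEnd ℂ z)) hab
    simp only [eval_add, eval_mul, sp_eval, eval_mul_cj, e1, e2, eval_one] at this
    rw [← hC1, ← hC2, sub_self, sub_self, mul_zero, mul_zero, add_zero] at this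
    exact zero_ne_one this
  have h3 := hev' z hz1 hz2
  rw [hρ0, eval_zero] at h3
  have h4 := (resultant_eq_zero_iff.mp h3.symm).2
  rw [isCoprime_iff_aeval_ne_zero_of_isAlgClosed ℂ ℂ] at h4
  push Not at h4
  obtain ⟨w, hw1, hw2⟩ := h4
  refine ⟨w, ?_, ?_⟩
  · have : (sp p1 C1 z).eval w = 0 := hw1
    rw [sp_eval] at this
    linear_combination this
  · have : (sp p2 C2 z).eval w = 0 := hw2
    rw [sp_eval] at this
    linear_combination this

/-- growth of a polynomial -/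
theorem tendsto_eval_div_pow (q : ℂ[X]) :
    Tendsto (fun w : ℂ => q.eval w / w ^ q.natDegree) (Bornology.cobounded ℂ)
      (𝓝 q.leadingCoeff) := by
  have h : Tendsto (fun w : ℂ => q.reverse.eval w⁻¹) (Bornology.cobounded ℂ)
      (𝓝 (q.reverse.eval 0)) :=
    (q.reverse.continuous.tendsto 0).comp tendsto_inv₀_cobounded
  rw [← coeff_zero_eq_eval_zero, coeff_zero_reverse] at h
  refine h.congr' ?_
  filter_upwards [Bornology.eventually_ne_cobounded (0 : ℂ)] with w hw
  let _ : Invertible w := invertibleOfNonzero hw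
  have := eval₂_reverse_mul_pow (RingHom.id ℂ) w q
  rw [← eval, ← eval, invOf_eq_inv] at this
  rw [← this, mul_div_assoc, div_self (pow_ne_zero _ hw), mul_one]

theorem growth (q1 q2 : ℂ[X]) (h1 : 0 < q1.natDegree) (h2 : 0 < q2.natDegree) :
    ∃ K R : ℝ, 0 < K ∧ ∀ w : ℂ, R < ‖w‖ →
      ‖q1.eval w‖ ^ q2.natDegree ≤ K * ‖q2.eval w‖ ^ q1.natDegree := by
  have l1 : q1.leadingCoeff ≠ 0 := by
    intro h
    rw [leadingCoeff_eq_zero] at h
    rw [h, natDegree_zero] at h1
    omega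
  have l2 : q2.leadingCoeff ≠ 0 := by
    intro h
    rw [leadingCoeff_eq_zero] at h
    rw [h, natDegree_zero] at h2
    omega
  have t1 := ((tendsto_eval_div_pow q1).norm).pow q2.natDegree
  have t2 := ((tendsto_eval_div_pow q2).norm).pow q1.natDegree
  have hl1 : 0 < ‖q1.leadingCoeff‖ := norm_pos_iff.mpr l1
  have hl2 : 0 < ‖q2.leadingCoeff‖ := norm_pos_iff.mpr l2
  have e1 : ∀ᶠ w in Bornology.cobounded ℂ, ‖q1.eval w / w ^ q1.natDegree‖ ^ q2.natDegree <
      2 * ‖q1.leadingCoeff‖ ^ q2.natDegree := by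
    refine t1.eventually_lt_const ?_
    have : 0 < ‖q1.leadingCoeff‖ ^ q2.natDegree := by positivity
    linarith
  have e2 : ∀ᶠ w in Bornology.cobounded ℂ, ‖q2.leadingCoeff‖ ^ q1.natDegree / 2 <
      ‖q2.eval w / w ^ q2.natDegree‖ ^ q1.natDegree := by
    refine t2.eventually_const_lt ?_
    have : 0 < ‖q2.leadingCoeff‖ ^ q1.natDegree := by positivity
    linarith
  have e3 := (e1.and e2).and (Bornology.eventually_ne_cobounded (0 : ℂ))
  rw [← comap_norm_atTop, eventually_comap, eventually_atTop] at e3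
  obtain ⟨R, hR⟩ := e3
  refine ⟨4 * ‖q1.leadingCoeff‖ ^ q2.natDegree / ‖q2.leadingCoeff‖ ^ q1.natDegree, R,
    by positivity, fun w hw => ?_⟩
  obtain ⟨⟨a1, a2⟩, a3⟩ := hR ‖w‖ hw.le w rfl
  have hw0 : 0 < ‖w‖ := norm_pos_iff.mpr a3
  rw [norm_div, norm_pow, div_pow, ← pow_mul] at a1 a2
  rw [div_lt_iff₀ (by positivity)] at a1
  rw [lt_div_iff₀ (by positivity)] at a2
  have e : q2.natDegree * q1.natDegree = q1.natDegree * q2.natDegree := mul_comm _ _
  rw [e] at a2
  have hB : 0 < ‖q2.leadingCoeff‖ ^ q1.natDegree := by positivity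
  have hA : 0 < ‖q1.leadingCoeff‖ ^ q2.natDegree := by positivity
  calc ‖q1.eval w‖ ^ q2.natDegree
      ≤ 2 * ‖q1.leadingCoeff‖ ^ q2.natDegree * ‖w‖ ^ (q1.natDegree * q2.natDegree) := a1.le
    _ = 4 * ‖q1.leadingCoeff‖ ^ q2.natDegree / ‖q2.leadingCoeff‖ ^ q1.natDegree *
        (‖q2.leadingCoeff‖ ^ q1.natDegree / 2 * ‖w‖ ^ (q1.natDegree * q2.natDegree)) := by
      field_simp
      ring
    _ ≤ _ := by
      refine mul_le_mul_of_nonneg_left a2.le (by positivity)

/-- comparison of multiplicities -/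
theorem rootMultiplicity_le (A B : ℂ[X]) (hA : A ≠ 0) (hB : B ≠ 0) (z0 : ℂ) (K : ℝ)
    (h : ∀ᶠ z in 𝓝[≠] z0, ‖A.eval z‖ ≤ K * ‖B.eval z‖) :
    rootMultiplicity z0 B ≤ rootMultiplicity z0 A := by
  obtain ⟨A', eA, nA⟩ := exists_eq_pow_rootMultiplicity_mul_and_not_dvd A hA z0
  obtain ⟨B', eB, -⟩ := exists_eq_pow_rootMultiplicity_mul_and_not_dvd B hB z0
  by_contra hlt
  push Not at hlt
  set a := rootMultiplicity z0 A with ha
  set b := rootMultiplicity z0 B with hb
  have hA' : A'.eval z0 ≠ 0 := by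
    intro h0
    exact nA (dvd_iff_isRoot.mpr h0)
  have h1 : ∀ᶠ z in 𝓝[≠] z0, ‖A'.eval z‖ ≤ K * (‖z - z0‖ ^ (b - a) * ‖B'.eval z‖) := by
    filter_upwards [h, self_mem_nhdsWithin] with z hz hne
    have hz0 : 0 < ‖z - z0‖ := norm_pos_iff.mpr (sub_ne_zero.mpr hne)
    have e1 : A.eval z = (z - z0) ^ a * A'.eval z := by
      conv_lhs => rw [eA]
      simp
    have e2 : B.eval z = (z - z0) ^ a * ((z - z0) ^ (b - a) * B'.eval z) := by
      conv_lhs => rw [eB]
      rw [← mul_assoc, ← pow_add, Nat.add_sub_cancel' hlt.le]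
      simp
    rw [e1, e2, norm_mul, norm_mul, norm_mul, norm_pow, norm_pow] at hz
    have hp : 0 < ‖z - z0‖ ^ a := by positivity
    refine le_of_mul_le_mul_left (le_trans hz (le_of_eq ?_)) hp
    ring
  have t1 : Tendsto (fun z => ‖A'.eval z‖) (𝓝[≠] z0) (𝓝 ‖A'.eval z0‖) :=
    (A'.continuous.norm.tendsto z0).mono_left nhdsWithin_le_nhds
  have t2 : Tendsto (fun z => K * (‖z - z0‖ ^ (b - a) * ‖B'.eval z‖)) (𝓝[≠] z0)
      (𝓝 (K * (‖z0 - z0‖ ^ (b - a) * ‖B'.eval z0‖))) := by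
    have hc : Continuous fun z : ℂ => K * (‖z - z0‖ ^ (b - a) * ‖B'.eval z‖) := by
      have := B'.continuous
      fun_prop
    exact (hc.tendsto z0).mono_left nhdsWithin_le_nhds
  have h2 := le_of_tendsto_of_tendsto t1 t2 h1
  rw [sub_self, norm_zero, zero_pow (by omega), zero_mul, mul_zero] at h2
  exact hA' (norm_le_zero_iff.mp h2)

/-- An infinite common level set forces a multiplicative relation. -/
theorem level_rel (p1 p2 : ℂ[X]) (h1 : 0 < p1.natDegree) (h2 : 0 < p2.natDegree) (c1 c2 : ℝ)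
    (hc1 : 0 < c1) (hc2 : 0 < c2)
    (hinf : {z : ℂ | ‖p1.eval z‖ = c1 ∧ ‖p2.eval z‖ = c2}.Infinite) :
    ∃ l : ℂ, p2 ^ p1.natDegree = Polynomial.C l * p1 ^ p2.natDegree := by
  set m1 := p1.natDegree with hm1
  set m2 := p2.natDegree with hm2
  have p1ne : p1 ≠ 0 := by
    intro h
    rw [h, natDegree_zero] at hm1
    omega
  have p2ne : p2 ≠ 0 := by
    intro h
    rw [h, natDegree_zero] at hm2
    omega
  have hmult : ∀ z0, rootMultiplicity z0 (p1 ^ m2) ≤ rootMultiplicity z0 (p2 ^ m1) := by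
    intro z0
    by_cases hz0 : p1.eval z0 = 0
    · have d1 : (cj p1).natDegree = m1 := cj_natDegree p1
      have d2 : (cj p2).natDegree = m2 := cj_natDegree p2
      obtain ⟨K, R, hK, hg⟩ := growth (cj p1) (cj p2) (by omega) (by omega)
      rw [d1, d2] at hg
      obtain ⟨M, hM⟩ := (isCompact_closedBall (0 : ℂ) R).exists_bound_of_continuousOn
        (cj p1).continuous.continuousOn
      have hne : ∀ p : ℂ[X], p ≠ 0 → ∀ᶠ z in 𝓝[≠] z0, p.eval z ≠ 0 := by
        intro p hp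
        have hfin : {z | p.IsRoot z}.Finite := by
          by_contra h
          exact hp (eq_zero_of_infinite_isRoot p h)
        have := (hfin.subset (Set.sdiff_subset (t := {z0}))).isClosed.isOpen_compl.mem_nhds
          (show z0 ∈ ({z | p.IsRoot z} \ {z0})ᶜ by simp)
        filter_upwards [nhdsWithin_le_nhds this, self_mem_nhdsWithin] with z hz hz' h0
        exact hz ⟨h0, hz'⟩
      have hsmall : ∀ᶠ z in 𝓝[≠] z0, ‖p1.eval z‖ < c1 ^ 2 / (|M| + 1) := by
        have ht : Tendsto (fun z => ‖p1.eval z‖) (𝓝[≠] z0) (𝓝 ‖p1.eval z0‖) :=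
          (p1.continuous.norm.tendsto z0).mono_left nhdsWithin_le_nhds
        refine ht.eventually_lt_const ?_
        rw [hz0, norm_zero]
        positivity
      refine rootMultiplicity_le _ _ (pow_ne_zero _ p2ne) (pow_ne_zero _ p1ne) z0
        (K * (c2 ^ 2) ^ m1 / (c1 ^ 2) ^ m2) ?_
      filter_upwards [hne p1 p1ne, hne p2 p2ne, hsmall] with z hz1 hz2 hz3
      obtain ⟨w, e1, e2⟩ := exists_partner p1 p2 h1 h2 c1 c2 hc1 hc2 hinf z hz1 hz2
      have n1 := congrArg norm e1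
      have n2 := congrArg norm e2
      rw [norm_mul, Complex.norm_real, Real.norm_of_nonneg (by positivity)] at n1 n2
      have q1 : 0 < ‖p1.eval z‖ := norm_pos_iff.mpr hz1
      have q2 : 0 < ‖p2.eval z‖ := norm_pos_iff.mpr hz2
      have hwR : R < ‖w‖ := by
        by_contra hcon
        push Not at hcon
        have h5 := hM w (by simpa using hcon)
        have h6 : ‖(cj p1).eval w‖ < |M| + 1 := lt_of_le_of_lt (h5.trans (le_abs_self M)) (by linarith)
        rw [lt_div_iff₀ (by positivity)] at hz3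
        have h7 : ‖p1.eval z‖ * ‖(cj p1).eval w‖ ≤ ‖p1.eval z‖ * (|M| + 1) :=
          mul_le_mul_of_nonneg_left h6.le q1.le
        linarith
      have h8 := hg w hwR
      have s1 : ‖(cj p1).eval w‖ = c1 ^ 2 / ‖p1.eval z‖ := by
        rw [eq_div_iff q1.ne', mul_comm]; exact n1
      have s2 : ‖(cj p2).eval w‖ = c2 ^ 2 / ‖p2.eval z‖ := by
        rw [eq_div_iff q2.ne', mul_comm]; exact n2
      rw [s1, s2, div_pow, div_pow, ← mul_div_assoc,
        div_le_div_iff₀ (by positivity) (by positivity)] at h8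
      rw [eval_pow, eval_pow, norm_pow, norm_pow, div_mul_eq_mul_div, le_div_iff₀ (by positivity)]
      linarith
    · have : rootMultiplicity z0 (p1 ^ m2) = 0 := by
        apply rootMultiplicity_eq_zero
        intro h
        rw [IsRoot, eval_pow] at h
        exact hz0 (pow_eq_zero_iff (by omega) |>.mp h)
      omega
  have hdvd : p1 ^ m2 ∣ p2 ^ m1 := by
    rw [IsAlgClosed.dvd_iff_roots_le_roots (pow_ne_zero _ p1ne) (pow_ne_zero _ p2ne),
      Multiset.le_iff_count]
    intro z0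
    rw [count_roots, count_roots]
    exact hmult z0
  obtain ⟨Q, hQ⟩ := hdvd
  have hQne : Q ≠ 0 := by
    intro h
    rw [h, mul_zero] at hQ
    exact pow_ne_zero _ p2ne hQ
  have hdeg := congrArg natDegree hQ
  rw [natDegree_mul (pow_ne_zero _ p1ne) hQne, natDegree_pow, natDegree_pow, ← hm1, ← hm2,
    mul_comm m2 m1] at hdeg
  have hQ0 : Q.natDegree = 0 := by omega
  refine ⟨Q.coeff 0, ?_⟩
  rw [hQ, mul_comm]
  congr 1
  exact eq_C_of_natDegree_eq_zero hQ0

variable {k : Type} [Field k]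

/-- For polynomials the finiteness hypothesis of `star_of` is automatic. -/
theorem fin_of_poly (P : Fin 3 → k[X]) (σ : k →+* ℂ)
    (hind : ∀ n : Fin 3 → ℤ, n ≠ 0 → ∀ c : k,
      ∏ j, (algebraMap k[X] (RatFunc k) (P j)) ^ n j ≠ RatFunc.C c) (c : Fin 3 → ℝ) :
    {z : ℂ | Reg (fun j => algebraMap k[X] (RatFunc k) (P j)) σ z ∧
      ∀ l, ‖cu (fun j => algebraMap k[X] (RatFunc k) (P j)) σ z l‖ = c l}.Finite := by
  have hcu : ∀ z l, cu (fun j => algebraMap k[X] (RatFunc k) (P j)) σ z l =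
      ((P l).map σ).eval z := by
    intro z l
    unfold cu ev
    rw [RatFunc.num_algebraMap, RatFunc.denom_algebraMap, eval₂_one, div_one, eval_map]
  have hdeg : ∀ j, 0 < (P j).natDegree := by
    intro j
    by_contra h0
    have h1 : (P j).natDegree = 0 := by omega
    have h2 := eq_C_of_natDegree_eq_zero h1
    refine hind (Pi.single j 1) (by simp) ((P j).coeff 0) ?_
    rw [Finset.prod_eq_single j]
    · rw [Pi.single_eq_same, zpow_one, ← RatFunc.algebraMap_C, ← h2]
    · intro i _ hi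
      rw [Pi.single_eq_of_ne hi, zpow_zero]
    · intro h
      exact absurd (Finset.mem_univ j) h
  have hPne : ∀ j, P j ≠ 0 := by
    intro j h
    have := hdeg j
    rw [h, natDegree_zero] at this
    omega
  have hdσ : ∀ j, ((P j).map σ).natDegree = (P j).natDegree := fun j =>
    natDegree_map_eq_of_injective σ.injective _
  by_contra hinf
  have hinf' : {z : ℂ | Reg (fun j => algebraMap k[X] (RatFunc k) (P j)) σ z ∧
      ∀ l, ‖cu (fun j => algebraMap k[X] (RatFunc k) (P j)) σ z l‖ = c l}.Infinite := hinf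
  obtain ⟨z1, hz1, hz1'⟩ := hinf'.nonempty
  have hcpos : ∀ l, 0 < c l := by
    intro l
    rw [← hz1' l]
    refine norm_pos_iff.mpr ?_
    exact div_ne_zero (hz1 l).1 (hz1 l).2
  have hsub : {z : ℂ | ‖((P 0).map σ).eval z‖ = c 0 ∧ ‖((P 1).map σ).eval z‖ = c 1}.Infinite := by
    refine hinf'.mono ?_
    rintro z ⟨-, hz⟩
    refine ⟨?_, ?_⟩
    · rw [← hcu]; exact hz 0
    · rw [← hcu]; exact hz 1
  obtain ⟨l, hl⟩ := level_rel ((P 0).map σ) ((P 1).map σ) (by rw [hdσ]; exact hdeg 0)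
    (by rw [hdσ]; exact hdeg 1) (c 0) (c 1) (hcpos 0) (hcpos 1) hsub
  rw [hdσ, hdσ] at hl
  set m0 := (P 0).natDegree with hm0
  set m1 := (P 1).natDegree with hm1
  -- the constant is in the image of `σ`
  have hlc : l = σ ((P 1).leadingCoeff ^ m0 / (P 0).leadingCoeff ^ m1) := by
    have h := congrArg leadingCoeff hl
    rw [leadingCoeff_pow, leadingCoeff_mul, leadingCoeff_C, leadingCoeff_pow,
      leadingCoeff_map_of_injective σ.injective, leadingCoeff_map_of_injective σ.injective] at h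
    have h0 : σ (P 0).leadingCoeff ^ m1 ≠ 0 :=
      pow_ne_zero _ ((map_ne_zero σ).mpr (leadingCoeff_ne_zero.mpr (hPne 0)))
    rw [map_div₀, map_pow, map_pow, eq_div_iff h0]
    exact h.symm
  set c' : k := (P 1).leadingCoeff ^ m0 / (P 0).leadingCoeff ^ m1 with hc'
  have hk : P 1 ^ m0 = Polynomial.C c' * P 0 ^ m1 := by
    apply map_injective σ σ.injective
    rw [Polynomial.map_mul, Polynomial.map_pow, Polynomial.map_pow, Polynomial.map_C, hl, hlc]
  have hR := congrArg (algebraMap k[X] (RatFunc k)) hk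
  rw [map_pow, map_mul, map_pow, RatFunc.algebraMap_C] at hR
  have hne0 : algebraMap k[X] (RatFunc k) (P 0) ≠ 0 := by
    rw [Ne, map_eq_zero_iff _ (RatFunc.algebraMap_injective k)]
    exact hPne 0
  refine hind ![-(m1 : ℤ), (m0 : ℤ), 0] ?_ c' ?_
  · intro h
    have h1 := congrFun h 1
    simp at h1
    have := hdeg 0
    omega
  · rw [Fin.prod_univ_three]
    simp only [Matrix.cons_val_zero, Matrix.cons_val_one, Matrix.cons_val_two, Matrix.head_cons,
      Matrix.tail_cons, zpow_zero, mul_one]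
    rw [zpow_neg, zpow_natCast, zpow_natCast, hR]
    field_simp

end Pool.Agent.Work.MP_7da6af_nt.Gen
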