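import Pool.Agent.Work.MP_7da6af_nt.Gen.Defs
import Pool.Agent.Work.MP_7da6af_nt.Poly

/-! # Values of polynomials with coefficients in a number field: place by place -/

set_option autoImplicit false

namespace Pool.Agent.Work.MP_7da6af_nt.Gen

open NumberField Polynomial

section

variable {k : Type} [Field k] {K : Type} [Field K]

theorem ev_zero (φ : k →+* K) (y : K) : ev φ y 0 = 0 := eval₂_zero _ _

theorem ev_one (φ : k →+* K) (y : K) : ev φ y 1 = 1 := eval₂_one _ _

theorem ev_add (φ : k →+* K) (y : K) (P Q : k[X]) : ev φ y (P + Q) = ev φ y P + ev φ y Q :=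
  eval₂_add _ _

theorem ev_mul (φ : k →+* K) (y : K) (P Q : k[X]) : ev φ y (P * Q) = ev φ y P * ev φ y Q :=
  eval₂_mul _ _

theorem ev_pow (φ : k →+* K) (y : K) (P : k[X]) (n : ℕ) : ev φ y (P ^ n) = ev φ y P ^ n :=
  eval₂_pow _ _ _

theorem ev_C (φ : k →+* K) (y : K) (a : k) : ev φ y (C a) = φ a := eval₂_C _ _

theorem ev_X (φ : k →+* K) (y : K) : ev φ y X = y := eval₂_X _ _

theorem ev_monomial (φ : k →+* K) (y : K) (i : ℕ) (a : k) :
    ev φ y (monomial i a) = φ a * y ^ i := eval₂_monomial _ _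

end

variable {k : Type} [Field k] [NumberField k]

theorem cst_nonneg (S : Finset k) {K : Type} [Field K] [NumberField K] (φ : k →+* K)
    (p : Pl K) : 0 ≤ cst S φ p :=
  add_nonneg (ar_nonneg p) (Finset.sum_nonneg fun _ _ => abs_nonneg _)

theorem cst_mono {S T : Finset k} (h : S ⊆ T) {K : Type} [Field K] [NumberField K]
    (φ : k →+* K) (p : Pl K) : cst S φ p ≤ cst T φ p := by
  unfold cst
  exact add_le_add le_rfl (Finset.sum_le_sum_of_subset_of_nonneg h fun _ _ _ => abs_nonneg _)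

theorem ar_le_cst (S : Finset k) {K : Type} [Field K] [NumberField K] (φ : k →+* K)
    (p : Pl K) : ar p ≤ cst S φ p :=
  le_add_of_nonneg_right (Finset.sum_nonneg fun _ _ => abs_nonneg _)

/-- the constant of `q` and the archimedean part -/
theorem ar_abs_le_cst {S : Finset k} {q : k} (hq : q ∈ S) {K : Type} [Field K] [NumberField K]
    (φ : k →+* K) (p : Pl K) : ar p + |lg p (φ q)| ≤ cst S φ p := by
  unfold cst
  exact add_le_add le_rfl (Finset.single_le_sum (f := fun q => |lg p (φ q)|)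
    (fun _ _ => abs_nonneg _) hq)

theorem fs_cst (S : Finset k) {K : Type} [Field K] [NumberField K] (φ : k →+* K) :
    FS (fun p : Pl K => cst S φ p) := by
  unfold cst
  exact fs_ar.add (FS.sum S fun q _ => fs_abs' _)

/-- the height of a constant -/
theorem hh_const {K : Type} [Field K] [NumberField K] (φ : k →+* K) {q : k} (hq : q ≠ 0) :
    hh (φ q) = hh q / dg k * dg K := by
  have h1 : (0 : ℝ) < dg k := dg_pos
  have h2 := hh_map φ hq
  field_simp
  linarith

theorem plSum_cst (S : Finset k) : ∃ C : ℝ, 0 ≤ C ∧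
    ∀ (K : Type) [Field K] [NumberField K] (φ : k →+* K),
      plSum K (fun p => cst S φ p) ≤ C * dg K := by
  have hk : (0 : ℝ) < dg k := dg_pos
  refine ⟨1 + ∑ q ∈ S, 2 * (hh q / dg k), ?_, fun K _ _ φ => ?_⟩
  · exact add_nonneg zero_le_one (Finset.sum_nonneg fun q _ =>
      mul_nonneg zero_le_two (div_nonneg (hh_nonneg q) hk.le))
  · unfold cst
    rw [plSum_add fs_ar (FS.sum S fun q _ => fs_abs' _), plSum_ar, plSum_sum S fun q _ => fs_abs' _,
      add_mul, one_mul, Finset.sum_mul]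
    refine add_le_add le_rfl (Finset.sum_le_sum fun q _ => ?_)
    by_cases hq : q = 0
    · subst hq
      simp only [map_zero, lg_zero, abs_zero]
      have h1 : plSum K (fun _ => (0 : ℝ)) = 0 := by simp [plSum]
      rw [h1]
      exact mul_nonneg (mul_nonneg zero_le_two (div_nonneg (hh_nonneg _) hk.le)) dg_pos.le
    · have h1 : φ q ≠ 0 := (map_ne_zero φ).2 hq
      rw [plSum_abs h1, hh_const φ hq]
      linarith

/-- upper bound with the degree as coefficient -/
def Upd (d : ℕ) (P : k[X]) : Prop :=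
  ∃ (C : ℝ) (S : Finset k), 0 ≤ C ∧
    ∀ (K : Type) [Field K] [NumberField K] (φ : k →+* K) (y : K) (p : Pl K),
      max 0 (lg p (ev φ y P)) ≤ C * cst S φ p + d * max 0 (lg p y)

theorem upd_monomial {d i : ℕ} (hi : i ≤ d) (a : k) : Upd d (monomial i a) := by
  refine ⟨1, {a}, zero_le_one, fun K _ _ φ y p => ?_⟩
  rw [ev_monomial]
  have h1 := pos_mul_le p (φ a) (y ^ i)
  have h2 := pos_pow_le p y i
  have h3 := ar_abs_le_cst (Finset.mem_singleton_self a) φ p
  have h4 : max 0 (lg p (φ a)) ≤ |lg p (φ a)| := max_le (abs_nonneg _) (le_abs_self _)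
  have h5 : (i : ℝ) * max 0 (lg p y) ≤ d * max 0 (lg p y) :=
    mul_le_mul_of_nonneg_right (by exact_mod_cast hi) (le_max_left _ _)
  have h6 := ar_nonneg p
  linarith

theorem upd_zero (d : ℕ) : Upd d (0 : k[X]) := by
  refine ⟨0, ∅, le_rfl, fun K _ _ φ y p => ?_⟩
  rw [ev_zero, lg_zero, max_self, zero_mul, zero_add]
  exact mul_nonneg (Nat.cast_nonneg _) (le_max_left _ _)

theorem upd_add {d : ℕ} {P Q : k[X]} (hP : Upd d P) (hQ : Upd d Q) : Upd d (P + Q) := by
  classical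
  obtain ⟨C₁, S₁, h₁, H₁⟩ := hP
  obtain ⟨C₂, S₂, h₂, H₂⟩ := hQ
  refine ⟨C₁ + C₂ + 1, S₁ ∪ S₂, by positivity, fun K _ _ φ y p => ?_⟩
  rw [ev_add]
  have g0 := pos_add_le p (ev φ y P) (ev φ y Q)
  have g1 := H₁ K φ y p
  have g2 := H₂ K φ y p
  have c1 := cst_mono (Finset.subset_union_left : S₁ ⊆ S₁ ∪ S₂) φ p
  have c2 := cst_mono (Finset.subset_union_right : S₂ ⊆ S₁ ∪ S₂) φ p
  have c3 := ar_le_cst (S₁ ∪ S₂) φ p
  have c4 := mul_le_mul_of_nonneg_left c1 h₁
  have c5 := mul_le_mul_of_nonneg_left c2 h₂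
  have c6 := cst_nonneg (S₁ ∪ S₂) φ p
  have c7 := mul_nonneg h₁ c6
  have c8 := mul_nonneg h₂ c6
  have g3 : max (max 0 (lg p (ev φ y P))) (max 0 (lg p (ev φ y Q))) ≤
      (C₁ + C₂) * cst (S₁ ∪ S₂) φ p + d * max 0 (lg p y) := by
    apply max_le
    · linarith
    · linarith
  linarith

theorem upd_of_natDegree_le {d : ℕ} {P : k[X]} (h : P.natDegree ≤ d) : Upd d P := by
  have key : ∀ n ≤ d + 1, Upd d (∑ i ∈ Finset.range n, monomial i (P.coeff i)) := by
    intro n hn
    induction n with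
    | zero =>
      rw [Finset.sum_range_zero]
      exact upd_zero d
    | succ n ih =>
      rw [Finset.sum_range_succ]
      exact upd_add (ih (by omega)) (upd_monomial (by omega) _)
  have h1 := key (d + 1) le_rfl
  rwa [← P.as_sum_range' (d + 1) (by omega)] at h1

/-- upper bound -/
theorem poly_up (P : k[X]) : ∃ (C : ℝ) (S : Finset k), 0 ≤ C ∧
    ∀ (K : Type) [Field K] [NumberField K] (φ : k →+* K) (y : K) (p : Pl K),
      max 0 (lg p (ev φ y P)) ≤ C * (cst S φ p + max 0 (lg p y)) := by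
  obtain ⟨C, S, hC, H⟩ := upd_of_natDegree_le (le_refl P.natDegree)
  refine ⟨C + P.natDegree, S, by positivity, fun K _ _ φ y p => ?_⟩
  have h1 := H K φ y p
  have h2 := cst_nonneg S φ p
  have h3 := le_max_left 0 (lg p y)
  have h4 := mul_nonneg hC h3
  have h5 := mul_nonneg (Nat.cast_nonneg (α := ℝ) P.natDegree) h2
  linarith

/-- lower bound -/
theorem poly_low (g : k[X]) (hg : 0 < g.natDegree) : ∃ (C : ℝ) (S : Finset k), 0 ≤ C ∧
    ∀ (K : Type) [Field K] [NumberField K] (φ : k →+* K) (y : K) (p : Pl K), ev φ y g ≠ 0 →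
      max 0 (lg p y) ≤ C * cst S φ p + max 0 (lg p (ev φ y g)) := by
  classical
  obtain ⟨C, S, hC, H⟩ := upd_of_natDegree_le (eraseLead_natDegree_le g)
  set lc := g.leadingCoeff with hlc
  have hlc0 : lc ≠ 0 := by
    rw [hlc, Ne, leadingCoeff_eq_zero]
    rintro rfl
    simp at hg
  refine ⟨C + 1, insert lc S, by positivity, fun K _ _ φ y p hgy => ?_⟩
  have h1 := H K φ y p
  have c1 := cst_mono (Finset.subset_insert lc S) φ p
  have c2 := mul_le_mul_of_nonneg_left c1 hC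
  have c3 := ar_abs_le_cst (Finset.mem_insert_self lc S) φ p
  have c4 := cst_nonneg (insert lc S) φ p
  have c5 := mul_nonneg hC c4
  have hG := le_max_left 0 (lg p (ev φ y g))
  have har := ar_nonneg p
  rcases le_or_gt (lg p y) 0 with h | h
  · rw [max_eq_left h]
    linarith
  have hy0 : y ≠ 0 := by
    rintro rfl
    rw [lg_zero] at h
    exact lt_irrefl _ h
  rw [max_eq_right h.le] at h1 ⊢
  have hlcK : φ lc ≠ 0 := (map_ne_zero φ).2 hlc0
  set n := g.natDegree with hn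
  have hn1 : ((n - 1 : ℕ) : ℝ) = n - 1 := by
    rw [Nat.cast_sub hg, Nat.cast_one]
  rw [hn1] at h1
  have hsum : φ lc * y ^ n = ev φ y g + -ev φ y g.eraseLead := by
    have e1 := congrArg (ev φ y) (eraseLead_add_monomial_natDegree_leadingCoeff g)
    rw [ev_add, ev_monomial] at e1
    rw [← e1]
    ring
  have hne : φ lc * y ^ n ≠ 0 := mul_ne_zero hlcK (pow_ne_zero _ hy0)
  have h2 := pos_add_le p (ev φ y g) (-ev φ y g.eraseLead)
  rw [← hsum, lg_neg] at h2
  have h3 : lg p (φ lc * y ^ n) = lg p (φ lc) + n * lg p y := by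
    rw [lg_mul p hlcK (pow_ne_zero _ hy0), lg_pow]
  have h4 := (le_max_right 0 (lg p (φ lc * y ^ n))).trans h2
  rw [h3] at h4
  have h5 := neg_abs_le (lg p (φ lc))
  have hn2 : (1 : ℝ) ≤ n := by exact_mod_cast hg
  rcases le_total (max 0 (lg p (ev φ y g))) (max 0 (lg p (ev φ y g.eraseLead))) with h6 | h6
  · rw [max_eq_right h6] at h4
    linarith
  · rw [max_eq_left h6] at h4
    have h7 : lg p y ≤ n * lg p y := by nlinarith
    linarith

/-- coprime polynomials are not small together -/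
theorem poly_cop (π ρ : k[X]) (h : IsCoprime π ρ) (hπ : 0 < π.natDegree) :
    ∃ (C : ℝ) (S : Finset k), 0 ≤ C ∧
    ∀ (K : Type) [Field K] [NumberField K] (φ : k →+* K) (y : K) (p : Pl K),
      ev φ y π ≠ 0 → ev φ y ρ ≠ 0 →
      - lg p (ev φ y π) ≤ C * cst S φ p ∨ |lg p (ev φ y ρ)| ≤ C * cst S φ p := by
  classical
  obtain ⟨A, B, hAB⟩ := h
  obtain ⟨C₁, S₁, hC₁, H₁⟩ := poly_low π hπ
  obtain ⟨C₂, S₂, hC₂, H₂⟩ := poly_up ρ
  obtain ⟨C₃, S₃, hC₃, H₃⟩ := poly_up A
  obtain ⟨C₄, S₄, hC₄, H₄⟩ := poly_up B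
  set S := S₁ ∪ S₂ ∪ (S₃ ∪ S₄) with hS
  have s1 : S₁ ⊆ S := fun x hx => by
    rw [hS]
    simp [hx]
  have s2 : S₂ ⊆ S := fun x hx => by
    rw [hS]
    simp [hx]
  have s3 : S₃ ⊆ S := fun x hx => by
    rw [hS]
    simp [hx]
  have s4 : S₄ ⊆ S := fun x hx => by
    rw [hS]
    simp [hx]
  refine ⟨(C₂ + C₃ + C₄) * (1 + C₁) + 1, S, by positivity, fun K _ _ φ y p h1 h2 => ?_⟩
  have c0 := cst_nonneg S φ p
  by_cases hT : - lg p (ev φ y π) ≤ ((C₂ + C₃ + C₄) * (1 + C₁) + 1) * cst S φ p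
  · exact Or.inl hT
  right
  push Not at hT
  have hneg : lg p (ev φ y π) < 0 := by
    have : 0 ≤ ((C₂ + C₃ + C₄) * (1 + C₁) + 1) * cst S φ p := by positivity
    linarith
  -- `y` is bounded
  have hy : max 0 (lg p y) ≤ C₁ * cst S φ p := by
    have e1 := H₁ K φ y p h1
    rw [max_eq_left hneg.le, add_zero] at e1
    exact e1.trans (mul_le_mul_of_nonneg_left (cst_mono s1 φ p) hC₁)
  have bd : ∀ (Q : k[X]) (D : ℝ) (T : Finset k), 0 ≤ D → T ⊆ S →
      max 0 (lg p (ev φ y Q)) ≤ D * (cst T φ p + max 0 (lg p y)) →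
      lg p (ev φ y Q) ≤ D * (1 + C₁) * cst S φ p := by
    intro Q D T hD hT hQ
    have e1 := cst_mono hT φ p
    have e2 : D * (cst T φ p + max 0 (lg p y)) ≤ D * (cst S φ p + C₁ * cst S φ p) :=
      mul_le_mul_of_nonneg_left (add_le_add e1 hy) hD
    have e3 := le_max_right 0 (lg p (ev φ y Q))
    calc lg p (ev φ y Q) ≤ D * (cst S φ p + C₁ * cst S φ p) := (e3.trans hQ).trans e2
      _ = D * (1 + C₁) * cst S φ p := by ring
  have b2 := bd ρ C₂ S₂ hC₂ s2 (H₂ K φ y p)
  have b3 := bd A C₃ S₃ hC₃ s3 (H₃ K φ y p)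
  have b4 := bd B C₄ S₄ hC₄ s4 (H₄ K φ y p)
  have n2 : 0 ≤ C₂ * (1 + C₁) * cst S φ p := by positivity
  have n3 : 0 ≤ C₃ * (1 + C₁) * cst S φ p := by positivity
  have n4 : 0 ≤ C₄ * (1 + C₁) * cst S φ p := by positivity
  have hexp : ((C₂ + C₃ + C₄) * (1 + C₁) + 1) * cst S φ p =
      C₂ * (1 + C₁) * cst S φ p + C₃ * (1 + C₁) * cst S φ p + C₄ * (1 + C₁) * cst S φ p +
        cst S φ p := by ring
  rw [hexp] at hT ⊢
  have har := ar_log_two p
  have har0 := ar_le_cst S φ p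
  have hsum : ev φ y A * ev φ y π + ev φ y B * ev φ y ρ = 1 := by
    rw [← ev_mul, ← ev_mul, ← ev_add, hAB, ev_one]
  have hlg1 : lg p (1 : K) = 0 := by
    unfold lg
    rw [map_one, Real.log_one]
  -- the lower bound for `ρ`
  have hlow : -(C₄ * (1 + C₁) * cst S φ p + cst S φ p) ≤ lg p (ev φ y ρ) := by
    by_cases hA : ev φ y A = 0
    · rw [hA, zero_mul, zero_add] at hsum
      have hB : ev φ y B ≠ 0 := by
        intro hB
        rw [hB, zero_mul] at hsum
        exact zero_ne_one hsum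
      have e1 := congrArg (lg p) hsum
      rw [lg_mul p hB h2, hlg1] at e1
      linarith
    by_cases hB : ev φ y B = 0
    · exfalso
      rw [hB, zero_mul, add_zero] at hsum
      have e1 := congrArg (lg p) hsum
      rw [lg_mul p hA h1, hlg1] at e1
      linarith
    · have e1 := lg_add_le p (mul_ne_zero hA h1) (mul_ne_zero hB h2)
        (by rw [hsum]; exact one_ne_zero)
      rw [hsum, hlg1, lg_mul p hA h1, lg_mul p hB h2] at e1
      rcases le_total (lg p (ev φ y A) + lg p (ev φ y π)) (lg p (ev φ y B) + lg p (ev φ y ρ))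
        with h8 | h8
      · rw [max_eq_right h8] at e1
        linarith
      · rw [max_eq_left h8] at e1
        exfalso
        linarith
  rw [abs_le]
  constructor <;> linarith

/-- heights of values -/
theorem hh_poly (P : k[X]) : ∃ C : ℝ, 0 ≤ C ∧
    ∀ (K : Type) [Field K] [NumberField K] (φ : k →+* K) (y : K), y ≠ 0 → ev φ y P ≠ 0 →
      hh (ev φ y P) ≤ C * (dg K + hh y) := by
  obtain ⟨C, S, hC, H⟩ := poly_up P
  obtain ⟨C', hC', H'⟩ := plSum_cst S
  refine ⟨C * (C' + 1), by positivity, fun K _ _ φ y hy hP => ?_⟩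
  have h1 : plSum K (fun p => max 0 (lg p (ev φ y P))) ≤
      plSum K (fun p => C * (cst S φ p + max 0 (lg p y))) :=
    plSum_mono (fs_max hP) (((fs_cst S φ).add (fs_max hy)).smul C) fun p => H K φ y p
  rw [plSum_smul, plSum_add (fs_cst S φ) (fs_max hy)] at h1
  have h2 := H' K φ
  have h3 : hh (ev φ y P) ≤ C * (plSum K (fun p => cst S φ p) + hh y) := h1
  have h4 := hh_nonneg y
  have h5 : 0 < dg K := dg_pos
  refine h3.trans ?_
  rw [mul_assoc]
  refine mul_le_mul_of_nonneg_left ?_ hC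
  nlinarith [mul_nonneg hC' h4]

/-- bounded height of the values from bounded height of the point -/
theorem hh_poly_bdd (P : k[X]) (B : ℝ) : ∃ C : ℝ, 0 ≤ C ∧
    ∀ (K : Type) [Field K] [NumberField K] (φ : k →+* K) (y : K), hh y ≤ B * dg K →
      ev φ y P ≠ 0 → hh (ev φ y P) ≤ C * dg K := by
  obtain ⟨C, hC, H⟩ := hh_poly P
  have hk : (0 : ℝ) < dg k := dg_pos
  have h6 : 0 ≤ hh (P.coeff 0) / dg k := div_nonneg (hh_nonneg _) hk.le
  refine ⟨C * (1 + |B|) + hh (P.coeff 0) / dg k, by positivity, fun K _ _ φ y hy hP => ?_⟩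
  have h5 : 0 < dg K := dg_pos
  by_cases hy0 : y = 0
  · subst hy0
    have e1 : ev φ (0 : K) P = φ (P.coeff 0) := by
      unfold ev
      rw [eval₂_at_zero]
    rw [e1] at hP ⊢
    have hq : P.coeff 0 ≠ 0 := by
      rintro h
      rw [h, map_zero] at hP
      exact hP rfl
    rw [hh_const φ hq]
    have : 0 ≤ C * (1 + |B|) := by positivity
    nlinarith
  · have h1 := H K φ y hy0 hP
    have h2 : B * dg K ≤ |B| * dg K := mul_le_mul_of_nonneg_right (le_abs_self B) h5.le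
    have h3 : C * (dg K + hh y) ≤ C * ((1 + |B|) * dg K) :=
      mul_le_mul_of_nonneg_left (by linarith) hC
    have h4 : 0 ≤ hh (P.coeff 0) / dg k * dg K := by positivity
    nlinarith

end Pool.Agent.Work.MP_7da6af_nt.Gen
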