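import Pool.Agent.Work.MP_7da6af_nt.Gen.StarOf
import Pool.Agent.Work.MP_7da6af_nt.Gen.FinPoly

/-! # The amoeba condition: criterion `star_of` and the finiteness `fin_of_poly` for polynomials -/
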