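import Pool.Agent.Work.MP_7da6af_nt.Gen.Star

/-! # The curves `(y, g(y), h(y))` -/

set_option autoImplicit false

namespace Pool.Agent.Work.MP_7da6af_nt.Gen

open Polynomial

/-- the curve `(y, g(y), h(y))` -/
noncomputable def Fgh {k : Type} [Field k] (g h : k[X]) : Fin 3 → RatFunc k :=
  ![algebraMap k[X] (RatFunc k) X, algebraMap k[X] (RatFunc k) g,
    algebraMap k[X] (RatFunc k) h]

/-- `θ ^ m * Q^*(a / θ)`, `Q^*` the complex conjugate polynomial -/
noncomputable def rvs (Q : ℂ[X]) (m : ℕ) (a : ℂ) : ℂ[X] :=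
  ∑ j ∈ Finset.range (m + 1), C ((starRingEnd ℂ) (Q.coeff j) * a ^ j) * X ^ (m - j)

/-- the generic version of `rvs` -/
noncomputable def rv (Q : ℂ[X]) (m : ℕ) : (MvPolynomial (Fin 3) ℂ)[X] :=
  ∑ j ∈ Finset.range (m + 1),
    C (MvPolynomial.C ((starRingEnd ℂ) (Q.coeff j)) * MvPolynomial.X 0 ^ j) * X ^ (m - j)

/-- `θ ^ m (Q(θ) Q^*(t_0 / θ) - t_i)` -/
noncomputable def pol (Q : ℂ[X]) (m : ℕ) (i : Fin 3) : (MvPolynomial (Fin 3) ℂ)[X] :=
  Q.map MvPolynomial.C * rv Q m - C (MvPolynomial.X i) * X ^ m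

/-- the specialisation of `pol` -/
noncomputable def pols (Q : ℂ[X]) (m : ℕ) (a b : ℂ) : ℂ[X] :=
  Q * rvs Q m a - C b * X ^ m

theorem pol_map (Q : ℂ[X]) (m : ℕ) (i : Fin 3) (s : Fin 3 → ℂ) :
    (pol Q m i).map (MvPolynomial.eval s) = pols Q m (s 0) (s i) := by
  have h1 : (MvPolynomial.eval s).comp MvPolynomial.C = RingHom.id ℂ := by
    ext x; simp
  rw [pol, pols, Polynomial.map_sub, Polynomial.map_mul, Polynomial.map_map, h1,
    Polynomial.map_id, rv, rvs, Polynomial.map_sum]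
  simp

theorem rvs_eval (Q : ℂ[X]) (m : ℕ) (hm : Q.natDegree ≤ m) (θ b : ℂ) :
    (rvs Q m (θ * b)).eval θ = θ ^ m * (starRingEnd ℂ) (Q.eval ((starRingEnd ℂ) b)) := by
  rw [rvs, Polynomial.eval_finsetSum, Polynomial.eval_eq_sum_range' (Nat.lt_succ_of_le hm),
    map_sum, Finset.mul_sum]
  refine Finset.sum_congr rfl fun j hj => ?_
  have hj' : j ≤ m := Nat.lt_succ_iff.1 (Finset.mem_range.1 hj)
  simp only [eval_mul, eval_C, eval_pow, eval_X, map_mul, map_pow, Complex.conj_conj]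
  rw [mul_pow, ← Nat.sub_add_cancel hj', pow_add]
  simp only [Nat.add_sub_cancel]
  ring

theorem rvs_coeff (Q : ℂ[X]) (m : ℕ) (a : ℂ) :
    (rvs Q m a).coeff m = (starRingEnd ℂ) (Q.coeff 0) := by
  rw [rvs, Polynomial.finsetSum_coeff, Finset.sum_eq_single 0]
  · simp
  · intro j hj hj0
    have hj' : j ≤ m := Nat.lt_succ_iff.1 (Finset.mem_range.1 hj)
    rw [coeff_C_mul, coeff_X_pow, if_neg (by omega), mul_zero]
  · intro h; simp at h

theorem rvs_natDegree_le (Q : ℂ[X]) (m : ℕ) (a : ℂ) : (rvs Q m a).natDegree ≤ m := by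
  rw [rvs]
  refine Polynomial.natDegree_sum_le_of_forall_le _ _ fun j _ => ?_
  exact (natDegree_C_mul_X_pow_le _ _).trans (Nat.sub_le _ _)

theorem rvs_natDegree (Q : ℂ[X]) (m : ℕ) (a : ℂ) (h0 : Q.coeff 0 ≠ 0) :
    (rvs Q m a).natDegree = m := by
  refine le_antisymm (rvs_natDegree_le Q m a) (le_natDegree_of_ne_zero ?_)
  rw [rvs_coeff]
  exact (_root_.map_ne_zero _).2 h0

theorem pols_natDegree (Q : ℂ[X]) (m : ℕ) (hm : Q.natDegree = m) (hm0 : m ≠ 0) (a b : ℂ)
    (h0 : Q.coeff 0 ≠ 0) : (pols Q m a b).natDegree = 2 * m := by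
  have hQ : Q ≠ 0 := by rintro rfl; simp at h0
  have hR : rvs Q m a ≠ 0 := by
    intro h
    have := rvs_natDegree Q m a h0
    rw [h, natDegree_zero] at this
    exact hm0 this.symm
  have h1 : (Q * rvs Q m a).natDegree = 2 * m := by
    rw [natDegree_mul hQ hR, rvs_natDegree Q m a h0, hm]; ring
  rw [pols, natDegree_sub_eq_left_of_natDegree_lt, h1]
  rw [h1]
  refine (natDegree_C_mul_X_pow_le _ _).trans_lt ?_
  omega

theorem resultant_zero_of_root (P Q : ℂ[X]) (m n : ℕ) (hP : P.natDegree = m)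
    (hQ : Q.natDegree = n) (hm : m ≠ 0) (z : ℂ) (h1 : P.eval z = 0) (h2 : Q.eval z = 0) :
    resultant P Q m n = 0 := by
  subst hP hQ
  rw [resultant_eq_zero_iff]
  refine ⟨Or.inl ?_, ?_⟩
  · rintro rfl; simp at hm
  · rintro ⟨a, b, hab⟩
    have := congrArg (Polynomial.eval z) hab
    simp [h1, h2] at this

theorem resultant_ne_of_no_root (P Q : ℂ[X]) (m n : ℕ) (hP : P.natDegree = m)
    (hQ : Q.natDegree = n) (h : ∀ z : ℂ, P.eval z = 0 → Q.eval z ≠ 0) :
    resultant P Q m n ≠ 0 := by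
  subst hP hQ
  apply resultant_ne_zero
  rw [Polynomial.isCoprime_iff_aeval_ne_zero_of_isAlgClosed ℂ ℂ]
  intro a
  by_cases h1 : P.eval a = 0
  · right; simpa using h a h1
  · left; simpa using h1

/-- If there is no `z ≠ 0` with `g(z) g*(1/z) = 1` and `h(z) h*(1/z) = 1`, where `g*`, `h*` are the
complex conjugate polynomials, then the amoeba condition holds. -/
theorem star_ex2 {k : Type} [Field k] (g h : k[X]) (hg0 : g.eval 0 ≠ 0) (hh0 : h.eval 0 ≠ 0)
    (hind : ∀ n : Fin 3 → ℤ, n ≠ 0 → ∀ c : k, ∏ j, Fgh g h j ^ n j ≠ RatFunc.C c)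
    (σ : k →+* ℂ)
    (hcrit : ∀ z : ℂ, z ≠ 0 →
      ev σ z g * (starRingEnd ℂ) (ev σ ((starRingEnd ℂ) z⁻¹) g) = 1 →
      ev σ z h * (starRingEnd ℂ) (ev σ ((starRingEnd ℂ) z⁻¹) h) ≠ 1) :
    StarP (Fgh g h) σ := by
  have hF : Fgh g h = fun j => algebraMap k[X] (RatFunc k) (![X, g, h] j) := by
    funext j
    fin_cases j <;> rfl
  have hcu : ∀ (z : ℂ) (l : Fin 3), cu (Fgh g h) σ z l = ev σ z (![X, g, h] l) := by
    intro z l
    rw [cu, hF]
    simp only [RatFunc.num_algebraMap, RatFunc.denom_algebraMap]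
    simp [ev]
  have hgd : g.natDegree ≠ 0 := by
    intro hd
    obtain ⟨c, rfl⟩ := natDegree_eq_zero.1 hd
    refine hind (Pi.single 1 1) (by simp) c ?_
    rw [Fin.prod_univ_three]
    simp [Fgh, RatFunc.algebraMap_C]
  have hhd : h.natDegree ≠ 0 := by
    intro hd
    obtain ⟨c, rfl⟩ := natDegree_eq_zero.1 hd
    refine hind (Pi.single 2 1) (by simp) c ?_
    rw [Fin.prod_univ_three]
    simp [Fgh, RatFunc.algebraMap_C]
  set G : ℂ[X] := g.map σ with hG
  set H : ℂ[X] := h.map σ with hH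
  have hGd : G.natDegree = g.natDegree := natDegree_map σ
  have hHd : H.natDegree = h.natDegree := natDegree_map σ
  have hG0 : G.coeff 0 ≠ 0 := by
    rw [hG, coeff_map, coeff_zero_eq_eval_zero]
    exact (_root_.map_ne_zero σ).2 hg0
  have hH0 : H.coeff 0 ≠ 0 := by
    rw [hH, coeff_map, coeff_zero_eq_eval_zero]
    exact (_root_.map_ne_zero σ).2 hh0
  have hevg : ∀ z, ev σ z g = G.eval z := fun z => by rw [ev, hG, eval_map]
  have hevh : ∀ z, ev σ z h = H.eval z := fun z => by rw [ev, hH, eval_map]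
  -- the polynomial relation
  set W : MvPolynomial (Fin 3) ℂ := resultant (pol G g.natDegree 1) (pol H h.natDegree 2)
    (2 * g.natDegree) (2 * h.natDegree) with hWdef
  have hWe : ∀ s : Fin 3 → ℂ, MvPolynomial.eval s W =
      resultant (pols G g.natDegree (s 0) (s 1)) (pols H h.natDegree (s 0) (s 2))
        (2 * g.natDegree) (2 * h.natDegree) := by
    intro s
    rw [hWdef, ← resultant_map_map, pol_map, pol_map]
  refine star_of (Fgh g h) σ ?_ W ?_ ?_
  · intro c
    rw [hF]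
    refine fin_of_poly _ σ ?_ c
    intro n hn c'
    have := hind n hn c'
    rwa [hF] at this
  · intro z hz
    rw [hWe]
    have hz0 : z ≠ 0 := by
      have h1 := (hz 0).1
      intro h0
      apply h1
      rw [hF]
      simp [ev, h0]
    have hn : ((‖z‖ ^ 2 : ℝ) : ℂ) = z * (starRingEnd ℂ) z := by
      rw [Complex.mul_conj, Complex.normSq_eq_norm_sq]
    have hsq : ∀ w : ℂ, ((‖w‖ ^ 2 : ℝ) : ℂ) = w * (starRingEnd ℂ) w := by
      intro w
      rw [Complex.mul_conj, Complex.normSq_eq_norm_sq]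
    have hc0 : cu (Fgh g h) σ z 0 = z := by rw [hcu]; simp [ev]
    have hc1 : cu (Fgh g h) σ z 1 = G.eval z := by rw [hcu, ← hevg]; rfl
    have hc2 : cu (Fgh g h) σ z 2 = H.eval z := by rw [hcu, ← hevh]; rfl
    refine resultant_zero_of_root _ _ _ _ (pols_natDegree _ _ hGd hgd _ _ hG0)
      (pols_natDegree _ _ hHd hhd _ _ hH0) (by omega) z ?_ ?_
    · simp only [hc0, hc1]
      rw [hsq z, hsq (G.eval z), pols, eval_sub, eval_mul, rvs_eval _ _ hGd.le]
      simp only [Complex.conj_conj, eval_mul, eval_C, eval_pow, eval_X]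
      ring
    · simp only [hc0, hc2]
      rw [hsq z, hsq (H.eval z), pols, eval_sub, eval_mul, rvs_eval _ _ hHd.le]
      simp only [Complex.conj_conj, eval_mul, eval_C, eval_pow, eval_X]
      ring
  · intro n _
    refine ⟨1, one_ne_zero, ?_⟩
    have hs : (fun l => (1 : ℂ) ^ n l) = fun _ => (1 : ℂ) := by
      funext l
      exact one_zpow _
    rw [hs, hWe]
    refine resultant_ne_of_no_root _ _ _ _ (pols_natDegree _ _ hGd hgd _ _ hG0)
      (pols_natDegree _ _ hHd hhd _ _ hH0) ?_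
    intro z hz1 hz2
    by_cases hz : z = 0
    · -- zero is not a root
      subst hz
      rw [pols, eval_sub, eval_mul] at hz1
      have h1 : (rvs G g.natDegree 1).eval 0 = (starRingEnd ℂ) (G.coeff g.natDegree) := by
        rw [rvs, eval_finsetSum, Finset.sum_eq_single g.natDegree]
        · simp
        · intro j hj hj0
          have hj' : j ≤ g.natDegree := Nat.lt_succ_iff.1 (Finset.mem_range.1 hj)
          have : g.natDegree - j ≠ 0 := by omega
          simp [this]
        · intro h; simp at h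
      rw [h1, eval_mul, eval_C, eval_pow, eval_X, zero_pow hgd, mul_zero, sub_zero,
        mul_eq_zero] at hz1
      rcases hz1 with h2 | h2
      · rw [← coeff_zero_eq_eval_zero] at h2
        exact hG0 h2
      · rw [map_eq_zero, ← hGd, coeff_natDegree, leadingCoeff_eq_zero] at h2
        rw [h2] at hG0
        simp at hG0
    · have h3 : (1 : ℂ) = z * z⁻¹ := (mul_inv_cancel₀ hz).symm
      have hzm : ∀ m : ℕ, z ^ m ≠ 0 := fun m => pow_ne_zero m hz
      have e1 : G.eval z * (starRingEnd ℂ) (G.eval ((starRingEnd ℂ) z⁻¹)) = 1 := by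
        rw [pols, eval_sub, eval_mul, eval_mul, eval_C, eval_pow, eval_X] at hz1
        nth_rewrite 1 [h3] at hz1
        rw [rvs_eval _ _ hGd.le] at hz1
        have : z ^ g.natDegree *
            (G.eval z * (starRingEnd ℂ) (G.eval ((starRingEnd ℂ) z⁻¹)) - 1) = 0 := by
          linear_combination hz1
        rcases mul_eq_zero.1 this with h | h
        · exact absurd h (hzm _)
        · linear_combination h
      have e2 : H.eval z * (starRingEnd ℂ) (H.eval ((starRingEnd ℂ) z⁻¹)) = 1 := by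
        rw [pols, eval_sub, eval_mul, eval_mul, eval_C, eval_pow, eval_X] at hz2
        nth_rewrite 1 [h3] at hz2
        rw [rvs_eval _ _ hHd.le] at hz2
        have : z ^ h.natDegree *
            (H.eval z * (starRingEnd ℂ) (H.eval ((starRingEnd ℂ) z⁻¹)) - 1) = 0 := by
          linear_combination hz2
        rcases mul_eq_zero.1 this with h | h
        · exact absurd h (hzm _)
        · linear_combination h
      rw [← hevg, ← hevg] at e1
      rw [← hevh, ← hevh] at e2
      exact hcrit z hz e1 e2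

end Pool.Agent.Work.MP_7da6af_nt.Gen
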